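import Pool.Agent.W_448s8_h94.DaC

/-!
Block D1 (MP_448cb3_co, S8): the bounds, no join of two fold ends (`m` odd).
-/

namespace Pool.Agent.GaussPoset

set_option linter.unusedSectionVars false

open Polynomial Finset

universe u

variable {P : Type u} [Fintype P] [PartialOrder P] [DecidableEq P] {r m : ℕ}
  {N : Tops P → Finset P} {b : Tops P → ℕ} {θ : Tops P → P → ℕ}

section Kap

variable {t : P} {Nc : Finset P} {co : P → ℕ × ℕ} {k : ℕ} {x : P}

lemma kap_chart_aux' (hm : 1 ≤ m) (C : Chart t (fun _ => True) Nc co) (hx : x ∈ Nc)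
    (h1 : 1 ≤ (co x).1) (h3 : (co x).1 ≤ (co x).2) (hl : 2 * m + 1 ≤ lev x)
    (hk : ((co x).1 - m) + ((co x).2 - m) + 1 ≤ k) :
    (m + 1) * (m + 1) + 2 ≤ ct m k x + (m + 1) := by
  have hlx := C.lev x hx
  obtain ⟨s, c, hs, hsm, hsc, hs1, hc1⟩ : ∃ s c, 1 ≤ s ∧ s ≤ m ∧ s + c = 2 * m + 1 ∧
      s ≤ (co x).1 ∧ c ≤ (co x).2 := by
    by_cases h4 : (co x).1 ≤ m
    · exact ⟨(co x).1, 2 * m + 1 - (co x).1, h1, h4, by omega, le_rfl, by omega⟩
    · exact ⟨m, m + 1, hm, le_rfl, by omega, by omega, by omega⟩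
  obtain ⟨u, hu, hcu⟩ := C.low x hx (s, c) ⟨hs1, hc1⟩ trivial
  have hxu : x ≤ u := by
    rw [C.le_iff x hx u hu, hcu]
    exact ⟨hs1, hc1⟩
  have hlu : lev u = 2 * m + 1 := by
    rw [C.lev u hu, hcu]
    exact hsc
  have h5 := kap_rect hs hsm hsc
  have h6 := ct_chart C (shift := false) (by simp) hu m (c - m + 1)
  rw [hcu, hlu] at h6
  simp only at h6
  rw [← h6] at h5
  have h7 := ct_mono (i := m) hxu (show c - m + 1 ≤ k by omega)
  omega

lemma kap_chart' (hm : 1 ≤ m) (C : Chart t (fun _ => True) Nc co) (hx : x ∈ Nc)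
    (h1 : 1 ≤ (co x).1) (h2 : 1 ≤ (co x).2) (hl : 2 * m + 1 ≤ lev x)
    (hk : ((co x).1 - m) + ((co x).2 - m) + 1 ≤ k) :
    (m + 1) * (m + 1) + 2 ≤ ct m k x + (m + 1) := by
  rcases le_total (co x).1 (co x).2 with h3 | h3
  · exact kap_chart_aux' hm C hx h1 h3 hl hk
  · refine kap_chart_aux' hm C.swap hx ?_ ?_ hl ?_
    · simpa using h2
    · simpa using h3
    · simp only [swp_fst, swp_snd]
      omega

lemma kap_chartS' (hm : 6 ≤ m) (C : Chart t (fun c => c.1 ≤ c.2) Nc co) (hx : x ∈ Nc)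
    (h1 : 1 ≤ (co x).1) (hl : 2 * m + 1 ≤ lev x)
    (hk : ((co x).1 - 2 * (m / 2)) + ((co x).2 - m) + 1 ≤ k) :
    Kb m ≤ ct m k x + (m + 1) := by
  have hlx := C.lev x hx
  have h3 : (co x).1 ≤ (co x).2 := C.mem x hx
  obtain ⟨s, c, hs, hsm, hsc, hs1, hc1⟩ : ∃ s c, 1 ≤ s ∧ s ≤ m ∧ s + c = 2 * m + 1 ∧
      s ≤ (co x).1 ∧ c ≤ (co x).2 := by
    by_cases h4 : (co x).1 ≤ m
    · exact ⟨(co x).1, 2 * m + 1 - (co x).1, h1, h4, by omega, le_rfl, by omega⟩
    · exact ⟨m, m + 1, by omega, le_rfl, by omega, by omega, by omega⟩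
  obtain ⟨u, hu, hcu⟩ := C.low x hx (s, c) ⟨hs1, hc1⟩ (show s ≤ c by omega)
  have hxu : x ≤ u := by
    rw [C.le_iff x hx u hu, hcu]
    exact ⟨hs1, hc1⟩
  have hlu : lev u = 2 * m + 1 := by
    rw [C.lev u hu, hcu]
    exact hsc
  have h5 := kap_stair hm hs hsm hsc rfl
  have h6 := ct_chart C (shift := true) (by simp) hu m ((s - 2 * (m / 2)) + (c - m) + 1)
  rw [hcu, hlu] at h6
  simp only at h6
  rw [← h6] at h5
  have h7 := ct_mono (i := m) hxu (show (s - 2 * (m / 2)) + (c - m) + 1 ≤ k by omega)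
  omega

/-- the second threshold -/
lemma kap1_chartS {q : ℕ} (hq : 5 ≤ q) (C : Chart t (fun c => c.1 ≤ c.2) Nc co) (hx : x ∈ Nc)
    (h1 : 1 ≤ (co x).1) (hl : 2 * (2 * q + 1) + 1 ≤ lev x)
    (hk : ((co x).1 - (2 * q - 2)) + ((co x).2 - (2 * q + 1)) ≤ k) :
    4 * q * q + 6 * q + 5 ≤ ct (2 * q + 1) k x := by
  have hlx := C.lev x hx
  have h3 : (co x).1 ≤ (co x).2 := C.mem x hx
  obtain ⟨s, c, hs, hsm, hsc, hs1, hc1⟩ : ∃ s c, 1 ≤ s ∧ s ≤ 2 * q + 1 ∧
      s + c = 2 * (2 * q + 1) + 1 ∧ s ≤ (co x).1 ∧ c ≤ (co x).2 := by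
    by_cases h4 : (co x).1 ≤ 2 * q + 1
    · exact ⟨(co x).1, 2 * (2 * q + 1) + 1 - (co x).1, h1, h4, by omega, le_rfl, by omega⟩
    · exact ⟨2 * q + 1, 2 * q + 1 + 1, by omega, le_rfl, by omega, by omega, by omega⟩
  obtain ⟨u, hu, hcu⟩ := C.low x hx (s, c) ⟨hs1, hc1⟩ (show s ≤ c by omega)
  have hxu : x ≤ u := by
    rw [C.le_iff x hx u hu, hcu]
    exact ⟨hs1, hc1⟩
  have hlu : lev u = 2 * (2 * q + 1) + 1 := by
    rw [C.lev u hu, hcu]
    exact hsc
  have h5 := stair1 hq hs hsm hsc rfl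
  have h6 := ct_chart C (shift := true) (by simp) hu (2 * q + 1)
    ((s - (2 * q - 2)) + (c - (2 * q + 1)))
  rw [hcu, hlu] at h6
  simp only at h6
  rw [← h6] at h5
  exact h5.trans (ct_mono (i := 2 * q + 1) hxu (by omega))

end Kap

lemma NF_mono (m : ℕ) {k k' : ℕ} (h : k ≤ k') : NF m k ≤ NF m k' := by
  unfold NF
  refine Finset.sum_le_sum fun u _ => Nat.mul_le_mul_right _ (min_le_min h le_rfl)

section Main

variable {z z' x x' : P}

lemma tA_not (hx : x ∉ unnat N) : tA m N b θ x = θ (topOf x) x := by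
  unfold tA
  rw [thX_not fun h => hx ((mem_twY.mp (mem_twR.mp h).1).1)]

lemma tB_not (hx : x ∉ unnat N) : tB m N b θ x = thP m N b θ (topOf x) x := by
  unfold tB
  rw [thX_not fun h => hx ((mem_twY.mp (mem_twR.mp h).1).1)]

/-- elements of level at least `2 m + 1` outside of `R3` -/
lemma D1H.high (D : D1H m N b θ) (W : WM r m N b θ) (hx : x ∉ R3 m N b θ)
    (hl : 2 * m + 1 ≤ lev x) :
    (FullM m N θ x ∧ tA m N b θ x = lev x - m ∧ tB m N b θ x = lev x - m) ∨
    (Kb m ≤ ct m (tA m N b θ x + 1) x + (m + 1) ∧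
      Kb m ≤ ct m (tA m N b θ x + 1) x + (tA m N b θ x + 1) ∧
      2 * NF m 2 + 2 < ct m (tB m N b θ x + 1) x + (tB m N b θ x + 1) ∧
      tA m N b θ x ≤ lev x - m ∧ tB m N b θ x ≤ lev x - m) := by
  have hm := W.ten
  have hodd := D.odd
  have hKb := Kb_le_sq m (by omega)
  have hNF : 2 * NF m 2 + 2 < (m + 1) * (m + 1) + 2 := by
    obtain ⟨q, hq⟩ : ∃ q, m = 2 * q + 1 := ⟨m / 2, by omega⟩
    rw [hq, NF_odd]
    nlinarith
  by_cases hU : x ∈ unnat N
  · right
    have hY : x ∈ twR m N b θ := by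
      by_contra hcon
      exact hx (mem_sdiff.mpr ⟨hU, hcon⟩)
    obtain ⟨Nc, co, h⟩ := W.twR_rect hY
    have h0 := (mem_twR.mp hY).1
    have h1 := W.twSys.lev h0
    obtain ⟨h3, h4⟩ := W.tw_th h0
    have h5 := W.twR_kap hY
    have h6 := kap_chart' (m := m) (k := θ (topOf (twT N x)) (twT N x) + 1) (by omega)
      h.rect.chart h.mem h.fst h.snd (by omega) (by rw [h.th])
    have h7 := ct_congr_up (i := m) (k := θ (topOf (twT N x)) (twT N x) + 1)
      (fun w => W.twSys.up x h0 w)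
    rw [h7] at h5 h6
    rw [W.tB_twR hY, tA_twR hY]
    exact ⟨by omega, by omega, by omega, by omega, by omega⟩
  · rw [tA_not hU, tB_not hU]
    rcases W.k2 hU with ⟨h, h'⟩ | ⟨Nc, co, hs, h⟩ | ⟨Nc, co, hs, h⟩ | h
    · exact Or.inl ⟨h, h.th, h'⟩
    · right
      have e1 := h.ins.stair.chart.lev x h.ins.mem
      have e2 : (co x).1 ≤ (co x).2 := h.ins.stair.chart.mem x h.ins.mem
      have e3 := h.ins.th
      have e4 := h.thP
      refine ⟨?_, ?_, ?_, ?_, ?_⟩
      · exact kap_chartS' (by omega) h.ins.stair.chart h.ins.mem h.ins.fst hl (by rw [e3])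
      · exact kap_chartS (by omega) h.ins.stair.chart h.ins.mem h.ins.fst hl (by rw [e3])
      · have h5 : 2 * NF m 2 + 2 < ct m (thP m N b θ (topOf x) x + 1) x := by
          obtain ⟨q, hq⟩ : ∃ q, m = 2 * q + 1 := ⟨m / 2, by omega⟩
          subst hq
          have h6 := kap1_chartS (k := thP (2 * q + 1) N b θ (topOf x) x + 1) (q := q) (by omega)
            h.ins.stair.chart h.ins.mem h.ins.fst hl (by omega)
          rw [NF_odd]
          nlinarith
        omega
      · omega
      · omega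
    · right
      have e1 := h.rect.chart.lev x h.mem
      have e3 := h.th
      rw [thP_not hs]
      have h5 := kap_chart (m := m) (k := θ (topOf x) x + 1) (by omega) h.rect.chart h.mem h.fst
        h.snd hl (by rw [e3])
      have h6 := kap_chart' (m := m) (k := θ (topOf x) x + 1) (by omega) h.rect.chart h.mem h.fst
        h.snd hl (by rw [e3])
      exact ⟨by omega, by omega, by omega, by omega, by omega⟩
    · have := h.lev
      omega

/-- the label at an element of level `2 m + 1`, second threshold -/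
lemma D1H.second (D : D1H m N b θ) (W : WM r m N b θ) (hz : z ∈ R3 m N b θ)
    (hl : lev z = 2 * m + 1) (hzx : z ⋖ x) : 2 * NF m 2 + 2 < ct m (tB m N b θ x + 1) z := by
  have H := W.gt.H
  have HN := W.natSys
  have hm := W.ten
  have hodd := D.odd
  have hlx : lev x = 2 * m := by
    have := (H.covBy_iff.mp hzx).2
    omega
  have hU := W.low hlx.le
  rw [tB_not hU]
  rcases D.l1 W hz hl with ⟨hY, hs⟩ | ⟨x1, x2, hx1, hx2, ht, hzx1, hzx2⟩ | h1
  · obtain ⟨Nc, co, h⟩ := W.twS_stair hY hs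
    have h1 := twT_spec (mem_twY.mp hY).2.2
    have h2 : twT N z ⋖ x := (cov_of_up h1.2).mpr hzx
    have h3 : topOf (twT N z) = topOf x := HN.cp _ _ h2.le h1.1
    have C := h.ins.stair.chart
    have hxN : x ∈ Nc := C.up _ h.ins.mem x h2.le
    have h4 := (chart_cov C H h.ins.mem hxN).mp h2
    have h5 := h.eq
    rw [h3] at h5
    have e1 := C.lev x hxN
    have e2 := C.lev _ h.ins.mem
    have e3 : (co x).1 ≤ (co x).2 := C.mem x hxN
    have e4 : (co (twT N z)).1 ≤ (co (twT N z)).2 := C.mem _ h.ins.mem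
    have e5 := h.ins.fst
    have e6 := W.twSys.lev hY
    have h6 : ((co (twT N z)).1 - (2 * (m / 2) - 2)) + ((co (twT N z)).2 - m) ≤
        thP m N b θ (topOf x) x + 1 := by
      rw [h5]
      unfold thSg
      split_ifs with hJ
      · omega
      · rcases h4 with h4 | h4
        · omega
        · omega
    have h7 := ct_congr_up (i := m) (k := thP m N b θ (topOf x) x + 1) h1.2
    rw [← h7]
    obtain ⟨q, hq⟩ : ∃ q, m = 2 * q + 1 := ⟨m / 2, by omega⟩
    subst hq
    have h8 := kap1_chartS (k := thP (2 * q + 1) N b θ (topOf x) x + 1) (q := q) (by omega)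
      C h.ins.mem h.ins.fst (by omega) (by omega)
    rw [NF_odd]
    nlinarith
  · have hne : x1 ≠ x2 := fun h => ht (by rw [h])
    have hfold : FoldM m N b θ x := by
      rcases uc_pair H hzx1 hzx2 hne hzx with h | h
      · rw [h]; exact hx1
      · rw [h]; exact hx2
    obtain ⟨Nc, co, h, hc⟩ := D.fold W hfold
    have h2 : thP m N b θ (topOf x) x = 3 := by
      rw [h.thP, hc]
      simp only
      omega
    rw [h2, ct_top hl (by omega), vs_add (v := x1) (w := x2)
      (fun u hu => W.nab_join hl hzx1 hzx2 ht (by omega)), hx1.vs, hx2.vs]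
    have := NF_mono m (show 2 ≤ 3 + 1 by omega)
    omega
  · have h2 := h1 x hzx
    have h3 : thP m N b θ (topOf x) x = m := by
      rcases D.cov W hz hl hzx with ⟨-, h⟩ | ⟨Nc, co, h⟩
      · rw [h, hlx]
        omega
      · exfalso
        have e1 := h.ins.stair.chart.lev x h.ins.mem
        have e2 : (co x).1 ≤ (co x).2 := h.ins.stair.chart.mem x h.ins.mem
        have e3 := h.ins.th
        have e4 := h2.th
        have e5 := h.ins.fst
        omega
    rw [h3]
    have h4 := ct_sq (k := m + 1) le_rfl hl.ge (fun l h1 h2 => D.two W hz h1 h2)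
    obtain ⟨q, hq⟩ : ∃ q, m = 2 * q + 1 := ⟨m / 2, by omega⟩
    subst hq
    rw [NF_odd]
    nlinarith

/-- the cost on one side -/
lemma D1H.kapA (D : D1H m N b θ) (W : WM r m N b θ) (hz : z ∈ R3 m N b θ) (hx : x ∉ R3 m N b θ)
    (hzx : z ⋖ x) : tA m N b θ x + 1 ≤ lev z - m ∧
      NF m 2 + 2 ≤ (tA m N b θ x + 1) + ct m (tA m N b θ x + 1) x := by
  have H := W.gt.H
  have hm := W.ten
  have hodd := D.odd
  have hlz := W.lt_lev (mem_sdiff.mp hz).1
  have hlx := (H.covBy_iff.mp hzx).2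
  obtain ⟨q, hq⟩ : ∃ q, m = 2 * q + 1 := ⟨m / 2, by omega⟩
  by_cases hl : lev z = 2 * m + 1
  · have hlx' : lev x = 2 * m := by omega
    have hU := W.low hlx'.le
    rw [tA_not hU]
    rcases D.cov W hz hl hzx with ⟨h, -⟩ | ⟨Nc, co, h⟩
    · rw [h.th, hlx']
      refine ⟨by omega, ?_⟩
      have h2 := ct_one (i := m) (j := m) (k := 2 * m - m + 1) (x := x) (by omega) (by omega)
      rw [show 2 * m - m = m by omega] at h2 ⊢
      subst hq
      rw [NF_odd]
      nlinarith
    · have e1 := h.ins.stair.chart.lev x h.ins.mem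
      have e2 : (co x).1 ≤ (co x).2 := h.ins.stair.chart.mem x h.ins.mem
      have e3 := h.ins.th
      have e5 := h.ins.fst
      by_cases hf : (co x).1 = m
      · have hfold : FoldM m N b θ x := ⟨Nc, co, h.ins, Prod.ext hf (by simp only; omega)⟩
        rw [hfold.th, hodd, ct_level hlx', hfold.vs, show (1 + 1 : ℕ) = 2 from rfl]
        omega
      · refine ⟨by omega, ?_⟩
        subst hq
        have h2 := stair3 (q := q) (s := (co x).1) (c := (co x).2) (by omega) e5 (by omega)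
          (by omega) rfl
        have h3 := ct_chart h.ins.stair.chart (shift := true) (by simp) h.ins.mem (2 * q + 1)
          ((co x).2 - (2 * q + 1) + 1)
        rw [hlx'] at h3
        rw [← h3] at h2
        have h4 : θ (topOf x) x = (co x).2 - (2 * q + 1) := by omega
        rw [h4, NF_odd]
        exact h2
  · rcases D.high W hx (by omega) with ⟨h1, h2, h3⟩ | ⟨h1, h2, h3, h4, h5⟩
    · rw [h2]
      refine ⟨by omega, ?_⟩
      have h6 := ct_one (i := m) (j := m + 1) (k := lev x - m + 1) (x := x) (by omega) (by omega)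
      subst hq
      rw [NF_odd]
      nlinarith
    · refine ⟨by omega, ?_⟩
      have h6 : NF m 2 + 2 ≤ Kb m := by
        subst hq
        rw [NF_odd, Kb_odd]
        nlinarith
      omega

/-- disjointness -/
lemma WM.disj (W : WM r m N b θ) (hx : x ∉ R3 m N b θ) (hx' : x' ∉ R3 m N b θ)
    (ht : topOf x ≠ topOf x') : ∀ w, x ≤ w → ¬ x' ≤ w := by
  intro w h1 h2
  have h3 := W.twR_sys.cp' W.natSys.cp x w h1 hx
  have h4 := W.twR_sys.cp' W.natSys.cp x' w h2 hx'
  exact ht (h3.trans h4.symm)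

open Classical in
/-- the joins of two fold ends -/
noncomputable def TF (m : ℕ) (N : Tops P → Finset P) (b : Tops P → ℕ) (θ : Tops P → P → ℕ) :
    Finset P := (R3 m N b θ).filter (fun z => lev z = 2 * m + 1 ∧ ∃ x x', FoldM m N b θ x ∧
      FoldM m N b θ x' ∧ topOf x ≠ topOf x' ∧ z ⋖ x ∧ z ⋖ x')

lemma mem_TF : z ∈ TF m N b θ ↔ z ∈ R3 m N b θ ∧ lev z = 2 * m + 1 ∧ ∃ x x', FoldM m N b θ x ∧
    FoldM m N b θ x' ∧ topOf x ≠ topOf x' ∧ z ⋖ x ∧ z ⋖ x' := by
  classical
  unfold TF
  rw [mem_filter]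

lemma WM.tf_ct (W : WM r m N b θ) (hz : z ∈ TF m N b θ) :
    ct m 2 z = 2 * NF m 2 + 2 := by
  have hm := W.ten
  obtain ⟨-, hl, x, x', hx, hx', ht, hzx, hzx'⟩ := mem_TF.mp hz
  rw [ct_top hl (by omega), vs_add (v := x) (w := x')
    (fun u hu => W.nab_join hl hzx hzx' ht (by omega)), hx.vs, hx'.vs]
  ring

/-- the main estimate -/
theorem D1H.lead (D : D1H m N b θ) (W : WM r m N b θ) :
    (1 + X : ℤ[X]) ^ ((lv P m).card - 1) ∣ Z P m (2 * NF m 2 + 2) -
      ∑ z ∈ (TF m N b θ).filter (fun z => cst m (fun _ => 2) z = 2 * NF m 2 + 2),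
        Lt m (fun _ => 2) z := by
  classical
  have H := W.gt.H
  have HN := W.natSys
  have hm := W.ten
  have hodd := D.odd
  have hlow := W.twR_sys.lower HN.lower
  have hNF : 2 * NF m 2 + 2 < (m + 1) * (m + 1) := by
    obtain ⟨q, hq⟩ : ∃ q, m = 2 * q + 1 := ⟨m / 2, by omega⟩
    rw [hq, NF_odd]
    nlinarith
  have hlevR : ∀ z ∈ R3 m N b θ, 2 * m < lev z := fun z hz => W.lt_lev (mem_sdiff.mp hz).1
  have hcov : ∀ {z x : P}, z ⋖ x → lev z = lev x + 1 := fun h => (H.covBy_iff.mp h).2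
  by_cases hne : Nonempty (Tops P)
  · refine far_two (R := R3 m N b θ) (cp := topOf) (θ := tA m N b θ) (θ' := tB m N b θ)
      (fun _ => 2) (TF m N b θ) H.gradedBelow ?_ ?_ ?_ ?_ ?_ ?_ ?_
    · intro x hx
      have := hlevR x hx
      omega
    · exact fun g hg0 hg => clean_of_not_bad2
        (fun k0 g hg0 h1 h2 => W.clean2 (by omega) k0 g hg0 h1 h2) g hg0 hg
    · intro z hz
      have h1 := ct_sq (k := m + 1) le_rfl (hlevR z hz) (fun l h1 h2 => D.two W hz h1 h2)
      have h2 := ct_full_le m (m + 1) z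
      omega
    · intro z hz x hx hzx
      by_cases hl : lev z = 2 * m + 1
      · exact D.second W hz hl hzx
      · have h0 := hlevR z hz
        have h00 := hcov hzx
        rcases D.high W hx (by omega) with ⟨h1, h2, h3⟩ | ⟨h1, h2, h3, h4, h5⟩
        · have h6 := ct_sq (k := tB m N b θ x + 1) (by omega) (hlevR z hz)
            (fun l h1 h2 => D.two W hz h1 h2)
          omega
        · have h6 := ct_cov (i := m) (k := tB m N b θ x + 1) hzx.1
          rw [Nat.min_eq_left (by omega)] at h6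
          omega
    · intro z hz z' hz' hne x hx hzx x' hx' hzx' ht
      obtain ⟨h1, h2⟩ := D.kapA W hz hx hzx
      obtain ⟨h3, h4⟩ := D.kapA W hz' hx' hzx'
      have h5 := sum_max_ge (i := m) (k := tA m N b θ x + 1) (k' := tA m N b θ x' + 1) hzx.1
        hzx'.1 hne (W.disj hx hx' ht) (fun h => hx' (hlow _ _ h hz)) (fun h => hx (hlow _ _ h hz'))
      rw [Nat.min_eq_left h1, Nat.min_eq_left h3] at h5
      omega
    · intro z hz x hx hzx x' hx' hzx' ht
      have h0 := hlevR z hz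
      have h00 := hcov hzx
      have h01 := hcov hzx'
      by_cases hl : lev z = 2 * m + 1
      · have hU := W.low (x := x) (by omega)
        have hU' := W.low (x := x') (by omega)
        have hnn : x ≠ x' := fun h => ht (by rw [h])
        rcases D.l1 W hz hl with ⟨hY, hs⟩ | ⟨x1, x2, hx1, hx2, ht', hzx1, hzx2⟩ | h1
        · exfalso
          have h1 := twT_spec (mem_twY.mp hY).2.2
          have h2 : twT N z ⋖ x := (cov_of_up h1.2).mpr hzx
          have h3 : twT N z ⋖ x' := (cov_of_up h1.2).mpr hzx'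
          have h4 := HN.cp _ _ h2.le h1.1
          have h5 := HN.cp _ _ h3.le h1.1
          exact ht (h4.symm.trans h5)
        · left
          have hTF : z ∈ TF m N b θ := mem_TF.mpr ⟨hz, hl, x1, x2, hx1, hx2, ht', hzx1, hzx2⟩
          have hne' : x1 ≠ x2 := fun h => ht' (by rw [h])
          have hf : ∀ {y : P}, z ⋖ y → FoldM m N b θ y := by
            intro y hy
            rcases uc_pair H hzx1 hzx2 hne' hy with h | h
            · rw [h]; exact hx1
            · rw [h]; exact hx2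
          refine ⟨hTF, ?_, ?_⟩
          · rw [tA_not hU, tA_not hU', (hf hzx).th, (hf hzx').th, hodd]
            rfl
          · have := W.tf_ct hTF
            exact this.ge
        · right
          rw [tA_not hU, tA_not hU', (h1 x hzx).th, (h1 x' hzx').th]
          have h6 := ct_sq (k := max (lev x - m) (lev x' - m) + 1) (by omega) (hlevR z hz)
            (fun l h1 h2 => D.two W hz h1 h2)
          omega
      · right
        have hK : 2 * NF m 2 + 2 + 2 * (m + 1) < 2 * Kb m := by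
          obtain ⟨q, hq⟩ : ∃ q, m = 2 * q + 1 := ⟨m / 2, by omega⟩
          rw [hq, NF_odd, Kb_odd]
          nlinarith
        have hK2 : 2 * (2 * NF m 2 + 2) + 2 * (m + 1) <
            2 * Kb m + (m + 1) * (m + 1 + 1) + 2 * (m + 2) := by
          obtain ⟨q, hq⟩ : ∃ q, m = 2 * q + 1 := ⟨m / 2, by omega⟩
          rw [hq, NF_odd, Kb_odd]
          nlinarith
        have hd := W.disj hx hx' ht
        have hsum := ct_two (i := m) (k := max (tA m N b θ x) (tA m N b θ x') + 1) hzx.1 hzx'.1 hd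
        have hm1 := ct_mono (i := m) (le_refl x)
          (show tA m N b θ x + 1 ≤ max (tA m N b θ x) (tA m N b θ x') + 1 by omega)
        have hm2 := ct_mono (i := m) (le_refl x')
          (show tA m N b θ x' + 1 ≤ max (tA m N b θ x) (tA m N b θ x') + 1 by omega)
        rcases D.high W hx (by omega) with ⟨h1, h2, h3⟩ | ⟨h1, h2, h3, h4, h5⟩
        · have h7 := ct_one (i := m) (j := m + 1) (k := max (tA m N b θ x) (tA m N b θ x') + 1)
            (x := x) (by omega) (by omega)
          rcases D.high W hx' (by omega) with ⟨g1, g2, g3⟩ | ⟨g1, g2, g3, g4, g5⟩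
          · have h6 := ct_sq (k := max (tA m N b θ x) (tA m N b θ x') + 1) (by omega)
              (hlevR z hz) (fun l h1 h2 => D.two W hz h1 h2)
            omega
          · have h8 : m + 2 ≤ min (max (tA m N b θ x) (tA m N b θ x') + 1) (lev z - m) := by
              rw [Nat.le_min]
              omega
            omega
        · rcases D.high W hx' (by omega) with ⟨g1, g2, g3⟩ | ⟨g1, g2, g3, g4, g5⟩
          · have h7 := ct_one (i := m) (j := m + 1)
              (k := max (tA m N b θ x) (tA m N b θ x') + 1) (x := x') (by omega) (by omega)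
            have h8 : m + 2 ≤ min (max (tA m N b θ x) (tA m N b θ x') + 1) (lev z - m) := by
              rw [Nat.le_min]
              omega
            omega
          · omega
    · intro z hz
      obtain ⟨h1, hl, x, x', hx, hx', ht, hzx, hzx'⟩ := mem_TF.mp hz
      have hU := W.low (x := x) hx.lev.le
      have hU' := W.low (x := x') hx'.lev.le
      refine ⟨h1, by omega, x, fun h => hU (mem_sdiff.mp h).1, hzx, x',
        fun h => hU' (mem_sdiff.mp h).1, hzx', ht, ?_⟩
      rw [tA_not hU, tA_not hU', hx.th, hx'.th, hodd]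
      rfl
  · -- no tops: `P` is empty
    have hE : ∀ x : P, False := fun x => hne ⟨topOf x⟩
    have h1 : (lv P m).card = 0 := by
      rw [Finset.card_eq_zero]
      exact Finset.eq_empty_of_forall_notMem fun x _ => hE x
    rw [h1]
    exact one_dvd _

end Main

/-- `m` odd: no join of two fold ends -/
theorem WM.no_ff_odd (W : WM r m N b θ) (hodd : m % 2 = 1)
    (hF : ∀ z x, lev z = 2 * m + 1 → z ∈ r2 (2 * m) N → FoldM m N b θ x → z ⋖ x →
      ∃ x', FoldM m N b θ x' ∧ topOf x ≠ topOf x' ∧ z ⋖ x')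
    (hQ : ∀ z x, lev z = 2 * m + 1 → QdM m N θ x → ¬ z ⋖ x) (S7 : S7M m N b θ) :
    ∀ z x x', lev z = 2 * m + 1 → FoldM m N b θ x → FoldM m N b θ x' → topOf x ≠ topOf x' →
      z ⋖ x → z ⋖ x' → False := by
  classical
  intro z x x' hl hx hx' ht hzx hzx'
  have H := W.gt.H
  have HN := W.natSys
  have hm := W.ten
  have D : D1H m N b θ := ⟨hodd, hF, hQ, S7⟩
  have hzU : z ∈ unnat N := by
    by_contra h
    have h1 := HN.cp _ _ hzx.le h
    have h2 := HN.cp _ _ hzx'.le h
    exact ht (h1.symm.trans h2)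
  have hzY : z ∉ twR m N b θ := by
    intro h
    have h1 := twT_spec (mem_twY.mp (mem_twR.mp h).1).2.2
    have h2 : twT N z ⋖ x := (cov_of_up h1.2).mpr hzx
    have h3 : twT N z ⋖ x' := (cov_of_up h1.2).mpr hzx'
    have h4 := HN.cp _ _ h2.le h1.1
    have h5 := HN.cp _ _ h3.le h1.1
    exact ht (h4.symm.trans h5)
  have hzT : z ∈ TF m N b θ := mem_TF.mpr ⟨mem_sdiff.mpr ⟨hzU, hzY⟩, hl, x, x', hx, hx', ht, hzx,
    hzx'⟩
  have hdrop : ∀ y ∈ TF m N b θ, nab m y = nab (m + 2) y + 2 ∧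
      nst m (fun _ => 2) y = 2 * (nF m 0 + nF m 1) := by
    intro y hy
    obtain ⟨-, hl, x, x', hx, hx', ht, hzx, hzx'⟩ := mem_TF.mp hy
    have hn : ∀ u, u ≤ m → nab (m + u) y = nab (m + u) x + nab (m + u) x' := by
      intro u hu
      exact W.nab_join hl hzx hzx' ht (by omega)
    have e0 := hn 0 (by omega)
    have e1 := hn 1 (by omega)
    have e2 := hn 2 (by omega)
    have f0 := hx.nab (u := 0) (by omega)
    have f0' := hx'.nab (u := 0) (by omega)
    rw [Nat.add_zero] at e0 f0 f0'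
    have hd : nF m 0 = nF m 2 + 1 := by
      have := nF_drop (m := m) (by omega)
      rwa [hh_eq, hodd] at this
    rw [f0, f0'] at e0
    rw [hx.nab (by omega), hx'.nab (by omega)] at e1 e2
    refine ⟨by omega, ?_⟩
    rw [nst_two (h := fun _ => 2) rfl, e0, e1]
    ring
  have hcard : nab m z ≤ (lv P m).card := by
    unfold nab
    exact Finset.card_filter_le _ _
  have hd0 := (hdrop z hzT).1
  have hlead := D.lead W
  have hZ := dvd_Z W.gt.H.gauss m (2 * NF m 2 + 2)
  have hZ' : (1 + X : ℤ[X]) ^ ((lv P m).card - 1) ∣ Z P m (2 * NF m 2 + 2) :=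
    dvd_trans (pow_dvd_pow _ (Nat.sub_le _ _)) hZ
  have hs := sign_sum_of_dvd (h := fun _ => 2) _ hZ' hlead (c0 := (lv P m).card - 2) (by omega) (by
    intro y hy
    have h1 := (hdrop y (mem_filter.mp hy).1).1
    omega)
  rw [Finset.sum_congr rfl (g := fun _ => (1 : ℤ))] at hs
  · rw [Finset.sum_const, nsmul_eq_mul, mul_one] at hs
    have h5 : ((TF m N b θ).filter (fun z => cst m (fun _ => 2) z = 2 * NF m 2 + 2)).filter
        (fun y => (lv P m).card - 2 + nab m y = (lv P m).card + nab (m + 2) y) = ∅ := by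
      rw [← Finset.card_eq_zero]
      exact_mod_cast hs
    have h6 : z ∈ ((TF m N b θ).filter (fun z => cst m (fun _ => 2) z = 2 * NF m 2 + 2)).filter
        (fun y => (lv P m).card - 2 + nab m y = (lv P m).card + nab (m + 2) y) := by
      rw [mem_filter, mem_filter]
      exact ⟨⟨hzT, W.tf_ct hzT⟩, by omega⟩
    rw [h5] at h6
    exact Finset.notMem_empty _ h6
  · intro y hy
    have h1 := (hdrop y (mem_filter.mp (mem_filter.mp hy).1).1).2
    rw [h1, pow_mul]
    norm_num

end Pool.Agent.GaussPoset
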