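import Pool.Agent.W_448s8_h76.SaI

/-!
Block D1 (MP_448cb3_co, S8): inequalities for `m = 2 q + 1`.
-/

namespace Pool.Agent.GaussPoset

set_option linter.unusedSectionVars false

open Finset

/-- a low row, general label -/
lemma rowW_gen {shift : Bool} {m c lv a L e : ℕ} (ha : shift = true → 2 * a ≤ m + 1) (hm : a ≤ m)
    (hc : m + e + L = c + 1 + a) (hlv : a + c ≤ lv) :
    L * (L - 1) + 2 * (L * e) ≤ 2 * rowW shift (fun k => min L (k - m)) c lv a := by
  rw [← two_sum_min L e]
  refine Nat.mul_le_mul_left 2 (rowW_ge m (e + L) (fun u => min L u) ?_)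
  intro u hu hu1
  have hu2 : 1 ≤ u := by
    by_contra hcon
    have h0 : u = 0 := by omega
    have h2 : 1 ≤ min L u := hu1
    rw [h0, Nat.min_zero] at h2
    omega
  refine ⟨by omega, by omega, by omega, fun h => ?_, ?_⟩
  · have := ha h
    omega
  show min L u ≤ min L (m + u - m)
  rw [Nat.add_sub_cancel_left]

/-- high rows with weight 4 (the first one 3) -/
lemma stair_high4 {m c lv L A n D : ℕ} (hA : m + 3 ≤ 2 * (A + 1)) (hL : 4 ≤ L)
    (hlv : A + n + c ≤ lv) (hD : D + A = c) (hn : n ≤ D) :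
    4 * (2 * (n * D)) ≤ 2 * (∑ i ∈ range n,
      rowW true (fun k => min L (k - m)) c lv (A + 1 + i)) + 4 * (n * (n - 1)) + 2 * D := by
  have h1 : ∑ i ∈ range n, 4 * (D - i) ≤ ∑ i ∈ range n,
      (rowW true (fun k => min L (k - m)) c lv (A + 1 + i) + if i = 0 then D else 0) := by
    refine Finset.sum_le_sum fun i hi => ?_
    rw [mem_range] at hi
    by_cases h0 : i = 0
    · subst h0
      have h2 := rowW_high (shift := true) (m := m) (c := c) (lv := lv) (a := A + 1 + 0)
        (L := L) (v := 3) (by omega) (by omega) (by omega)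
      rw [if_pos rfl]
      have h3 : c + 1 - (A + 1 + 0) = D := by omega
      rw [h3] at h2
      omega
    · have h2 := rowW_high (shift := true) (m := m) (c := c) (lv := lv) (a := A + 1 + i)
        (L := L) (v := 4) (by omega) hL (by omega)
      rw [if_neg h0]
      have h3 : c + 1 - (A + 1 + i) = D - i := by omega
      rw [h3] at h2
      omega
  rw [← Finset.mul_sum, Finset.sum_add_distrib] at h1
  have h4 : ∑ i ∈ range n, (if i = 0 then D else 0) ≤ D := by
    rw [Finset.sum_ite_eq' (range n) 0]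
    split_ifs <;> omega
  have h3 := sum_dec D n hn
  calc 4 * (2 * (n * D)) = 4 * (2 * ∑ i ∈ range n, (D - i) + n * (n - 1)) := by rw [h3]
    _ = 2 * (4 * ∑ i ∈ range n, (D - i)) + 4 * (n * (n - 1)) := by ring
    _ ≤ _ := by omega

/-- the low rows, general -/
lemma stair_lowg {m c lv L A d : ℕ} (hA : 2 * A ≤ m + 1) (hc : m + L + d = c + 1)
    (hlv : A + c ≤ lv) :
    (A + 1) * (L * (L - 1)) + L * ((A + 1) * A) + 2 * ((A + 1) * (L * d)) ≤
      2 * ∑ a ∈ range (A + 1), rowW true (fun k => min L (k - m)) c lv a := by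
  have h1 : ∑ a ∈ range (A + 1), (L * (L - 1) + 2 * (L * a) + 2 * (L * d)) ≤
      ∑ a ∈ range (A + 1), 2 * rowW true (fun k => min L (k - m)) c lv a := by
    refine Finset.sum_le_sum fun a ha => ?_
    rw [mem_range] at ha
    have h2 : a ≤ m := by
      rcases Nat.eq_zero_or_pos a with h0 | h0
      · omega
      · omega
    have h3 := rowW_gen (shift := true) (m := m) (c := c) (lv := lv) (a := a) (L := L)
      (e := a + d) (fun _ => by omega) h2 (by omega) (by omega)
    have h4 : 2 * (L * (a + d)) = 2 * (L * a) + 2 * (L * d) := by ring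
    omega
  rw [Finset.sum_add_distrib, sum_low, Finset.sum_const, card_range, smul_eq_mul,
    ← Finset.mul_sum, Nat.add_sub_cancel] at h1
  have h5 : (A + 1) * (2 * (L * d)) = 2 * ((A + 1) * (L * d)) := by ring
  omega

/-- the low rows, label larger than the first row allows -/
lemma stair_lowh {m c lv L A d : ℕ} (hA : 2 * (A + d) ≤ m + 1) (hc : m + L = c + 1 + d)
    (hd : 1 ≤ A + d) (hlv : A + d + c ≤ lv) :
    (A + 1) * (L * (L - 1)) + L * ((A + 1) * A) ≤
      2 * ∑ a ∈ range (A + d + 1), rowW true (fun k => min L (k - m)) c lv a := by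
  have h1 : ∑ a ∈ range (A + 1), (L * (L - 1) + 2 * (L * a)) ≤
      ∑ a ∈ range (A + 1), 2 * rowW true (fun k => min L (k - m)) c lv (d + a) := by
    refine Finset.sum_le_sum fun a ha => ?_
    rw [mem_range] at ha
    exact rowW_gen (shift := true) (m := m) (c := c) (lv := lv) (a := d + a) (L := L)
      (e := a) (fun _ => by omega) (by omega) (by omega) (by omega)
  rw [sum_low, ← Finset.mul_sum, Nat.add_sub_cancel] at h1
  refine h1.trans (Nat.mul_le_mul_left 2 ?_)
  rw [show A + d + 1 = d + (A + 1) by omega, Finset.sum_range_add _ d (A + 1)]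
  exact Nat.le_add_left _ _

/-- cells of level `2 m + 1`, label `θ'` -/
theorem stair1 {q s c L : ℕ} (hq : 5 ≤ q) (hs : 1 ≤ s) (hsm : s ≤ 2 * q + 1)
    (hc : s + c = 2 * (2 * q + 1) + 1)
    (hL : L = (s - (2 * q - 2)) + (c - (2 * q + 1))) :
    4 * q * q + 6 * q + 5 ≤ ∑ a ∈ range (s + 1),
      rowW true (fun k => min L (k - (2 * q + 1))) c (2 * (2 * q + 1) + 1) a := by
  by_cases h1 : s ≤ q + 1
  · -- all rows are low
    obtain ⟨s', rfl⟩ : ∃ s', s = s' + 1 := ⟨s - 1, by omega⟩
    obtain ⟨d, rfl⟩ : ∃ d, q = s' + d := ⟨q - s', by omega⟩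
    have hL' : L = s' + 2 * d + 1 := by omega
    have h2 := stair_lowg (m := 2 * (s' + d) + 1) (c := c) (lv := 2 * (2 * (s' + d) + 1) + 1)
      (L := L) (A := s' + 1) (d := 1) (by omega) (by omega) (by omega)
    subst hL'
    rw [Nat.add_sub_cancel] at h2
    obtain ⟨S, hS⟩ : ∃ S, S = ∑ a ∈ range (s' + 1 + 1),
      rowW true (fun k => min (s' + 2 * d + 1) (k - (2 * (s' + d) + 1))) c
        (2 * (2 * (s' + d) + 1) + 1) a := ⟨_, rfl⟩
    rw [← hS] at h2 ⊢
    clear hS hL hc
    nlinarith [Nat.zero_le (s' * d), Nat.zero_le (s' * s'), Nat.zero_le (s' * s' * d),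
      Nat.zero_le (s' * d * d), Nat.zero_le (s' * s' * s')]
  · obtain ⟨n, hn⟩ : ∃ n, s + 1 = (q + 1 + 1) + n := ⟨s + 1 - (q + 1 + 1), by omega⟩
    rw [hn, Finset.sum_range_add]
    obtain ⟨S1, hS1⟩ : ∃ S1, S1 = ∑ a ∈ range (q + 1 + 1),
      rowW true (fun k => min L (k - (2 * q + 1))) c (2 * (2 * q + 1) + 1) a := ⟨_, rfl⟩
    obtain ⟨S2, hS2⟩ : ∃ S2, S2 = ∑ a ∈ range n,
      rowW true (fun k => min L (k - (2 * q + 1))) c (2 * (2 * q + 1) + 1) (q + 1 + 1 + a) :=
      ⟨_, rfl⟩
    have h3 := stair_high4 (m := 2 * q + 1) (c := c) (lv := 2 * (2 * q + 1) + 1) (L := L)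
      (A := q + 1) (n := n) (D := c - (q + 1)) (by omega) (by omega) (by omega) (by omega)
      (by omega)
    rw [← hS2] at h3
    rw [← hS1, ← hS2]
    by_cases h4 : s + 3 ≤ 2 * q + 1
    · have h5 := stair_lowg (m := 2 * q + 1) (c := c) (lv := 2 * (2 * q + 1) + 1)
        (L := L) (A := q + 1) (d := 1) (by omega) (by omega) (by omega)
      rw [← hS1] at h5
      clear hS1 hS2
      obtain ⟨k, rfl⟩ : ∃ k, L = k + 4 := ⟨L - 4, by omega⟩
      obtain ⟨n', rfl⟩ : ∃ n', n = n' + 1 := ⟨n - 1, by omega⟩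
      obtain rfl : q = k + 4 + n' := by omega
      have e1 : c - (k + 4 + n' + 1) = 2 * k + 8 + n' := by omega
      rw [e1, Nat.add_sub_cancel] at h3
      have e2 : k + 4 - 1 = k + 3 := by omega
      rw [e2] at h5
      clear e1 e2 hL hc hn h1 h4 hq hs hsm
      nlinarith [Nat.zero_le (k * n'), Nat.zero_le (k * k), Nat.zero_le (n' * n'),
        Nat.zero_le (k * k * n'), Nat.zero_le (k * n' * n'), Nat.zero_le (k * k * k)]
    · obtain ⟨n', rfl⟩ : ∃ n', n = n' + 1 := ⟨n - 1, by omega⟩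
      obtain ⟨p, rfl⟩ : ∃ p, q = p + 5 := ⟨q - 5, by omega⟩
      by_cases h6 : s + 2 = 2 * (p + 5) + 1
      · have h5 := stair_lowg (m := 2 * (p + 5) + 1) (c := c) (lv := 2 * (2 * (p + 5) + 1) + 1)
          (L := L) (A := p + 5 + 1) (d := 0) (by omega) (by omega) (by omega)
        rw [← hS1] at h5
        clear hS1 hS2
        have e1 : c - (p + 5 + 1) = p + 8 := by omega
        have e2 : L = 4 := by omega
        have e3 : n' = p + 2 := by omega
        rw [e1, Nat.add_sub_cancel, e3] at h3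
        rw [e2] at h5
        norm_num at h5
        clear e1 e2 e3 hL hc hn h1 h4 hq hs hsm h6
        nlinarith
      · by_cases h7 : s + 1 = 2 * (p + 5) + 1
        · have h5 := stair_lowh (m := 2 * (p + 5) + 1) (c := c)
            (lv := 2 * (2 * (p + 5) + 1) + 1) (L := L) (A := p + 5) (d := 1) (by omega)
            (by omega) (by omega) (by omega)
          rw [← hS1] at h5
          clear hS1 hS2
          have e1 : c - (p + 5 + 1) = p + 7 := by omega
          have e2 : L = 4 := by omega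
          have e3 : n' = p + 3 := by omega
          rw [e1, Nat.add_sub_cancel, e3] at h3
          rw [e2] at h5
          norm_num at h5
          clear e1 e2 e3 hL hc hn h1 h4 hq hs hsm h6 h7
          nlinarith
        · have h8 : s = 2 * (p + 5) + 1 := by omega
          have h5 := stair_lowh (m := 2 * (p + 5) + 1) (c := c)
            (lv := 2 * (2 * (p + 5) + 1) + 1) (L := L) (A := p + 4) (d := 2) (by omega)
            (by omega) (by omega) (by omega)
          rw [← hS1] at h5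
          clear hS1 hS2
          have e1 : c - (p + 5 + 1) = p + 6 := by omega
          have e2 : L = 4 := by omega
          have e3 : n' = p + 4 := by omega
          rw [e1, Nat.add_sub_cancel, e3] at h3
          rw [e2] at h5
          norm_num at h5
          clear e1 e2 e3 hL hc hn h1 h4 hq hs hsm h6 h7 h8
          nlinarith

/-- cells of level `2 m`, label `θ + 1`, `s < m` -/
theorem stair3 {q s c L : ℕ} (hq : 5 ≤ q) (hs : 1 ≤ s) (hsm : s ≤ 2 * q)
    (hc : s + c = 2 * (2 * q + 1)) (hL : L = c - (2 * q + 1) + 1) :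
    (q + 1) * (2 * q + 1) + 2 ≤ L + ∑ a ∈ range (s + 1),
      rowW true (fun k => min L (k - (2 * q + 1))) c (2 * (2 * q + 1)) a := by
  by_cases h1 : s ≤ q + 1
  · obtain ⟨s', rfl⟩ : ∃ s', s = s' + 1 := ⟨s - 1, by omega⟩
    obtain ⟨d, rfl⟩ : ∃ d, q = s' + d := ⟨q - s', by omega⟩
    have hL' : L = s' + 2 * d + 1 := by omega
    have h2 := stair_lowg (m := 2 * (s' + d) + 1) (c := c) (lv := 2 * (2 * (s' + d) + 1))
      (L := L) (A := s' + 1) (d := 0) (by omega) (by omega) (by omega)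
    subst hL'
    rw [Nat.add_sub_cancel] at h2
    obtain ⟨S, hS⟩ : ∃ S, S = ∑ a ∈ range (s' + 1 + 1),
      rowW true (fun k => min (s' + 2 * d + 1) (k - (2 * (s' + d) + 1))) c
        (2 * (2 * (s' + d) + 1)) a := ⟨_, rfl⟩
    rw [← hS] at h2 ⊢
    clear hS hL hc
    nlinarith [Nat.zero_le (s' * d), Nat.zero_le (s' * s'), Nat.zero_le (s' * s' * d),
      Nat.zero_le (s' * d * d), Nat.zero_le (s' * s' * s')]
  · obtain ⟨n, hn⟩ : ∃ n, s + 1 = (q + 1 + 1) + n := ⟨s + 1 - (q + 1 + 1), by omega⟩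
    rw [hn, Finset.sum_range_add]
    obtain ⟨S1, hS1⟩ : ∃ S1, S1 = ∑ a ∈ range (q + 1 + 1),
      rowW true (fun k => min L (k - (2 * q + 1))) c (2 * (2 * q + 1)) a := ⟨_, rfl⟩
    obtain ⟨S2, hS2⟩ : ∃ S2, S2 = ∑ a ∈ range n,
      rowW true (fun k => min L (k - (2 * q + 1))) c (2 * (2 * q + 1)) (q + 1 + 1 + a) :=
      ⟨_, rfl⟩
    have h5 := stair_lowg (m := 2 * q + 1) (c := c) (lv := 2 * (2 * q + 1))
        (L := L) (A := q + 1) (d := 0) (by omega) (by omega) (by omega)
    have h3 : ∑ i ∈ range n, 2 * (c - (q + 1) - i) ≤ ∑ i ∈ range n,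
        rowW true (fun k => min L (k - (2 * q + 1))) c (2 * (2 * q + 1)) (q + 1 + 1 + i) := by
      refine Finset.sum_le_sum fun i hi => ?_
      rw [mem_range] at hi
      have h2 := rowW_high (shift := true) (m := 2 * q + 1) (c := c) (lv := 2 * (2 * q + 1))
        (a := q + 1 + 1 + i) (L := L) (v := 2) (by omega) (by omega) (by omega)
      rwa [show c + 1 - (q + 1 + 1 + i) = c - (q + 1) - i by omega] at h2
    have h4 := sum_dec (c - (q + 1)) n (by omega)
    rw [← Finset.mul_sum, ← hS2] at h3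
    rw [← hS1] at h5
    rw [← hS1, ← hS2]
    clear hS1 hS2
    obtain ⟨k, rfl⟩ : ∃ k, L = k + 2 := ⟨L - 2, by omega⟩
    obtain ⟨n', rfl⟩ : ∃ n', n = n' + 1 := ⟨n - 1, by omega⟩
    obtain rfl : q = k + 2 + n' := by omega
    have e1 : c - (k + 2 + n' + 1) = 2 * k + 3 + n' := by omega
    have e2 : k + 2 - 1 = k + 1 := by omega
    rw [e1] at h3 h4
    rw [Nat.add_sub_cancel] at h4
    rw [e2] at h5
    obtain ⟨T, hT⟩ : ∃ T, T = ∑ i ∈ range (n' + 1), (2 * k + 3 + n' - i) := ⟨_, rfl⟩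
    rw [← hT] at h3 h4
    clear hT e1 e2 hL hc hn h1
    nlinarith [Nat.zero_le (k * n'), Nat.zero_le (k * k), Nat.zero_le (n' * n'),
      Nat.zero_le (k * k * n'), Nat.zero_le (k * n' * n'), Nat.zero_le (k * k * k)]

end Pool.Agent.GaussPoset
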