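import Pool.Agent.W_448s8_h94.DaA
import Pool.Agent.W_448b1_h24.BC

/-!
Block D1 (MP_448cb3_co, S8): second thresholds, the truncated data.
-/

namespace Pool.Agent.GaussPoset

set_option linter.unusedSectionVars false

open Polynomial Finset

universe u

variable {P : Type u} [Fintype P] [PartialOrder P] [DecidableEq P] {r m : ℕ}
  {N : Tops P → Finset P} {b : Tops P → ℕ} {θ : Tops P → P → ℕ}

/-- chart of a stair-like top -/
structure StC (m : ℕ) (N : Tops P → Finset P) (b : Tops P → ℕ) (θ : Tops P → P → ℕ) (t : Tops P)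
    (c : Finset P × (P → ℕ × ℕ)) : Prop where
  st : StairNat (2 * m) m t c.1 c.2
  nat : N t = natS c.1 c.2
  th : θ t = thS m c.1 c.2
  b : b t = m / 2 + 1
  nop : NopT m t

/-- stair-like tops -/
def StT (m : ℕ) (N : Tops P → Finset P) (b : Tops P → ℕ) (θ : Tops P → P → ℕ) (t : Tops P) :
    Prop := ∃ c : Finset P × (P → ℕ × ℕ), StC m N b θ t c

open Classical in
/-- the second thresholds -/
noncomputable def thP (m : ℕ) (N : Tops P → Finset P) (b : Tops P → ℕ) (θ : Tops P → P → ℕ)
    (t : Tops P) : P → ℕ :=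
  if h : StT m N b θ t then thSg (2 * (m / 2) - 2) m h.choose.1 h.choose.2 else θ t

lemma thP_st {t : Tops P} (h : StT m N b θ t) : ∃ c : Finset P × (P → ℕ × ℕ), StC m N b θ t c ∧
    thP m N b θ t = thSg (2 * (m / 2) - 2) m c.1 c.2 :=
  ⟨h.choose, h.choose_spec, dif_pos h⟩

lemma thP_not {t : Tops P} (h : ¬ StT m N b θ t) : thP m N b θ t = θ t := dif_neg h

/-- inner cells of a stair-like component, with both thresholds -/
structure InS2 (m : ℕ) (N : Tops P → Finset P) (b : Tops P → ℕ) (θ : Tops P → P → ℕ) (x : P)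
    (Nc : Finset P) (co : P → ℕ × ℕ) : Prop where
  ins : InSM m N b θ x Nc co
  thP : thP m N b θ (topOf x) x = ((co x).1 - (2 * (m / 2) - 2)) + ((co x).2 - m)
  sc : StC m N b θ (topOf x) (Nc, co)
  eq : Pool.Agent.GaussPoset.thP m N b θ (topOf x) = thSg (2 * (m / 2) - 2) m Nc co

/-- the kinds of natural elements, with the second thresholds -/
inductive K2 (m : ℕ) (N : Tops P → Finset P) (b : Tops P → ℕ) (θ : Tops P → P → ℕ) (x : P) : Prop
  | full (h : FullM m N θ x) (h2 : Pool.Agent.GaussPoset.thP m N b θ (topOf x) x = lev x - m)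
  | stair (Nc : Finset P) (co : P → ℕ × ℕ) (hs : StT m N b θ (topOf x))
      (h : InS2 m N b θ x Nc co)
  | rect (Nc : Finset P) (co : P → ℕ × ℕ) (hs : ¬ StT m N b θ (topOf x))
      (h : InRM m N b θ x Nc co)
  | quad (h : QdM m N θ x)

/-- two elements of level 2 below a stair-like top -/
lemma stair_cn {t : Tops P} {Nc : Finset P} {co : P → ℕ × ℕ} (h : StairNat (2 * m) m t Nc co)
    (hm : 2 ≤ m) : 2 ≤ cn 2 (t : P) := by
  classical
  obtain ⟨x0, hx0, hc0⟩ := h.cell
  obtain ⟨y1, hy1, hc1⟩ := h.chart.low x0 hx0 (0, 2) (by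
    rw [hc0]; exact ⟨Nat.zero_le _, hm⟩) (Nat.zero_le _)
  obtain ⟨y2, hy2, hc2⟩ := h.chart.low x0 hx0 (1, 1) (by
    rw [hc0]; exact ⟨by simp only; omega, by simp only; omega⟩) le_rfl
  have hne : y1 ≠ y2 := by
    rintro rfl
    rw [hc1] at hc2
    simp at hc2
  have h3 : ({y1, y2} : Finset P) ⊆ (lv P 2).filter (fun x => x ≤ (t : P)) := by
    intro y hy
    rw [mem_insert, mem_singleton] at hy
    rw [mem_filter, mem_lv]
    rcases hy with rfl | rfl
    · exact ⟨by rw [h.chart.lev _ hy1, hc1]; rfl, h.chart.le_t _ hy1⟩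
    · exact ⟨by rw [h.chart.lev _ hy2, hc2]; rfl, h.chart.le_t _ hy2⟩
  have h4 := Finset.card_le_card h3
  rwa [Finset.card_pair hne] at h4

/-- a component is not rectangle-like and stair-like -/
lemma rect_ne_stair {t : Tops P} {Nc Nc' : Finset P} {co co' : P → ℕ × ℕ} {b : ℕ}
    (h : StairNat (2 * m) m t Nc co) (h' : RectNat (2 * m) m t b Nc' co') (hm : 1 ≤ m) :
    False := by
  classical
  obtain ⟨x0, hx0, hc0⟩ := h'.cell
  have hb := h'.b_two
  obtain ⟨y1, hy1, hc1⟩ := h'.chart.low x0 hx0 (0, 1) (by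
    rw [hc0]; exact ⟨Nat.zero_le _, hm⟩) trivial
  obtain ⟨y2, hy2, hc2⟩ := h'.chart.low x0 hx0 (1, 0) (by
    rw [hc0]; exact ⟨by simp only; omega, Nat.zero_le _⟩) trivial
  have hne : y1 ≠ y2 := by
    rintro rfl
    rw [hc1] at hc2
    simp at hc2
  have l1 := h'.chart.lev _ hy1
  have l2 := h'.chart.lev _ hy2
  rw [hc1] at l1
  rw [hc2] at l2
  simp only at l1 l2
  have m1 : y1 ∈ Nc := h.strip (mem_lowPart.mpr ⟨h'.chart.le_t _ hy1, by omega⟩)
  have m2 : y2 ∈ Nc := h.strip (mem_lowPart.mpr ⟨h'.chart.le_t _ hy2, by omega⟩)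
  have e1 := h.chart.lev _ m1
  have e2 := h.chart.lev _ m2
  have f1 : (co y1).1 ≤ (co y1).2 := h.chart.mem _ m1
  have f2 : (co y2).1 ≤ (co y2).2 := h.chart.mem _ m2
  exact hne (h.chart.inj _ m1 _ m2 (Prod.ext (by omega) (by omega)))

theorem WM.k2 (W : WM r m N b θ) {x : P} (hx : x ∉ unnat N) : K2 m N b θ x := by
  have H := W.gt.H
  have HN := W.natSys
  have hxt : x ∈ N (topOf x) := HN.mem_iff.mpr ⟨hx, rfl⟩
  have hm := W.ten
  by_cases hs : StT m N b θ (topOf x)
  · obtain ⟨⟨Nc, co⟩, ⟨h0, h1, h2, h3, h4⟩, h5⟩ := thP_st hs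
    simp only at h0 h1 h2 h5
    rw [h1] at hxt
    by_cases hJ : x ∈ junk (fun c => c.1 ≤ c.2) Nc co
    · refine K2.full ⟨?_, ?_, ?_⟩ ?_
      · rw [h2]
        unfold thS
        rw [if_pos hJ]
      · intro z hz hzx k hk hkx
        exact stair_two_le_nab H h0 h1 hz hzx (Or.inl hJ) hk hkx
      · intro z hz h
        refine mem_unnat.mp hz (topOf x) ?_
        rw [h1, mem_natS]
        exact Or.inr (junk_twin hJ h)
      · rw [h5]
        unfold thSg
        rw [if_pos hJ]
    · have hxN : x ∈ Nc := by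
        rw [mem_natS] at hxt
        rcases hxt with h | h
        · exact h
        · exact absurd h hJ
      have hl := h0.chart.lev x hxN
      by_cases h7 : (co x).1 = 0
      · refine K2.full ⟨?_, ?_, ?_⟩ ?_
        · rw [h2]
          unfold thS
          rw [if_neg hJ]
          omega
        · intro z hz hzx k hk hkx
          exact stair_two_le_nab H h0 h1 hz hzx (Or.inr ⟨hxN, h7⟩) hk hkx
        · intro z hz h
          have h8 := W.lt_lev hz
          rw [← lev_eq_of_up h] at h8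
          obtain ⟨u, hu, hcu⟩ := h0.chart.low x hxN (0, (co x).2 - 1)
            ⟨Nat.zero_le _, Nat.sub_le _ _⟩ (Nat.zero_le _)
          refine straight_twinS H h0 (by omega) h1 hxN hu ?_ ?_ ?_ hz h
          · rw [hcu]
            exact Or.inr ⟨by simp only; omega, by simp only; omega⟩
          · intro y hy hp
            rw [hcu]
            rcases hp with hp | hp
            · omega
            · exact Prod.ext (by simp only; omega) (by simp only; omega)
          · rw [hcu]
        · rw [h5]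
          unfold thSg
          rw [if_neg hJ]
          omega
      · refine K2.stair Nc co hs ⟨⟨h0, h1, hxN, by omega, ?_, h4⟩, ?_, ⟨h0, h1, h2, h3, h4⟩, h5⟩
        · rw [h2]
          unfold thS
          rw [if_neg hJ]
        · rw [h5]
          unfold thSg
          rw [if_neg hJ]
  · have h8 := thP_not hs
    have hT := W.typ (topOf x)
    rcases W.cases hx with h | ⟨Nc, co, h⟩ | ⟨Nc, co, h⟩ | h
    · exact K2.full h (by rw [h8]; exact h.th)
    · exact K2.rect Nc co hs h
    · exfalso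
      -- the type is not stair, so the element is not inner of a stair
      rcases hT with ⟨g1, g2, g3, g5, g6, g7⟩ | ⟨Nc', co', g0, g1, g2, g3⟩ |
        ⟨Nc', co', g0, g1, g2, g3, g4⟩ | ⟨g1, g2, g3, g4⟩
      · have h9 := stair_cn h.stair (by omega)
        rcases g7 with ⟨e1, -⟩ | ⟨a, e1, e2⟩
        · rw [e1 2 (by omega)] at h9
          omega
        · rw [e2.cn 2 (by omega), if_neg (by omega)] at h9
          omega
      · exact rect_ne_stair h.stair g0 (by omega)
      · exact hs ⟨(Nc', co'), g0, g1, g2, g3, g4⟩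
      · have h9 := stair_cn h.stair (by omega)
        rw [g4.cn 2 (by omega), if_neg (by omega)] at h9
        omega
    · exact K2.quad h

/-- twins of cells of rectangle-like components -/
noncomputable def twR (m : ℕ) (N : Tops P → Finset P) (b : Tops P → ℕ) (θ : Tops P → P → ℕ) :
    Finset P := by
  classical
  exact (twY (2 * m) N).filter (fun z => ¬ StT m N b θ (topOf z))

lemma mem_twR {z : P} : z ∈ twR m N b θ ↔ z ∈ twY (2 * m) N ∧ ¬ StT m N b θ (topOf z) := by
  classical
  unfold twR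
  rw [mem_filter]

/-- the unnatural elements without the twins of rectangle cells -/
noncomputable abbrev R3 (m : ℕ) (N : Tops P → Finset P) (b : Tops P → ℕ) (θ : Tops P → P → ℕ) :
    Finset P := unnat N \ twR m N b θ

theorem WM.twR_sys (W : WM r m N b θ) : TwSys (unnat N) (twR m N b θ) topOf (twT N) where
  sub := fun _ hx => W.twSys.sub (mem_twR.mp hx).1
  nat := fun x hx => W.twSys.nat x (mem_twR.mp hx).1
  up := fun x hx => W.twSys.up x (mem_twR.mp hx).1
  inj := fun x hx x' hx' => W.twSys.inj x (mem_twR.mp hx).1 x' (mem_twR.mp hx').1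
  anti := fun x hx y hy => W.twSys.anti x (mem_twR.mp hx).1 y (mem_twR.mp hy).1
  cp := fun x hx => W.twSys.cp x (mem_twR.mp hx).1

/-- the natural element of a twin of a rectangle cell -/
lemma WM.twR_rect (W : WM r m N b θ) {x : P} (hx : x ∈ twR m N b θ) :
    ∃ Nc co, InRM m N b θ (twT N x) Nc co := by
  have h0 := mem_twR.mp hx
  have h1 := mem_twY.mp h0.1
  have h3 := twT_spec h1.2.2
  have h6 : topOf (twT N x) = topOf x := W.twSys.cp x h0.1
  rcases W.k2 h3.1 with ⟨h, -⟩ | ⟨Nc, co, hs, h⟩ | ⟨Nc, co, hs, h⟩ | h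
  · exact absurd h3.2 (h.tw x h1.1)
  · rw [h6] at hs
    exact absurd hs h0.2
  · exact ⟨Nc, co, h⟩
  · have h4 := h.lev
    have h5 := W.twSys.lev h0.1
    omega

/-- the natural element of a twin of a stair cell -/
lemma WM.twS_stair (W : WM r m N b θ) {x : P} (hx : x ∈ twY (2 * m) N)
    (hs : StT m N b θ (topOf x)) : ∃ Nc co, InS2 m N b θ (twT N x) Nc co := by
  have h1 := mem_twY.mp hx
  have h3 := twT_spec h1.2.2
  have h6 : topOf (twT N x) = topOf x := W.twSys.cp x hx
  rcases W.k2 h3.1 with ⟨h, -⟩ | ⟨Nc, co, hs', h⟩ | ⟨Nc, co, hs', h⟩ | h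
  · exact absurd h3.2 (h.tw x h1.1)
  · exact ⟨Nc, co, h⟩
  · rw [h6] at hs'
    exact absurd hs hs'
  · have h4 := h.lev
    have h5 := W.twSys.lev hx
    omega

lemma WM.twR_kap (W : WM r m N b θ) {x : P} (hx : x ∈ twR m N b θ) :
    (m + 1) * (m + 1) + 2 ≤ ct m (θ (topOf (twT N x)) (twT N x) + 1) (twT N x) +
      (θ (topOf (twT N x)) (twT N x) + 1) := by
  have h0 := mem_twR.mp hx
  have h1 := mem_twY.mp h0.1
  have h5 := W.twSys.lev h0.1
  have hm := W.ten
  obtain ⟨Nc, co, h⟩ := W.twR_rect hx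
  refine kap_chart (by omega) h.rect.chart h.mem h.fst h.snd (by omega) ?_
  rw [h.th]

/-- the thresholds for the component `k0` -/
noncomputable def thK (m : ℕ) (N : Tops P → Finset P) (b : Tops P → ℕ) (θ : Tops P → P → ℕ)
    (k0 t : Tops P) : P → ℕ := by
  classical
  exact if t = k0 then thP m N b θ t else θ t

/-- the orders for the component `k0` -/
noncomputable def bK (m : ℕ) (N : Tops P → Finset P) (b : Tops P → ℕ) (θ : Tops P → P → ℕ)
    (k0 t : Tops P) : ℕ := by
  classical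
  exact if t = k0 ∧ StT m N b θ t then m / 2 else b t

theorem WM.natTopK (W : WM r m N b θ) (k0 t : Tops P) :
    ∃ B, NatTop m t (bK m N b θ k0 t) (N t) (thK m N b θ k0 t) B := by
  classical
  have hm := W.ten
  by_cases h : t = k0 ∧ StT m N b θ t
  · obtain ⟨⟨Nc, co⟩, h1, h2⟩ := thP_st h.2
    simp only at h2
    have e1 : bK m N b θ k0 t = m / 2 := if_pos h
    have e2 : thK m N b θ k0 t = thSg (2 * (m / 2) - 2) m Nc co := by
      unfold thK
      rw [if_pos h.1, h2]
    rw [e1, e2, h1.nat]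
    exact ⟨_, h1.st.natTop_less W.gt.H.gradedBelow (by omega) (by omega)⟩
  · have e1 : bK m N b θ k0 t = b t := if_neg h
    have e2 : thK m N b θ k0 t = θ t := by
      unfold thK
      by_cases h3 : t = k0
      · rw [if_pos h3, thP_not fun h4 => h ⟨h3, h4⟩]
      · rw [if_neg h3]
    rw [e1, e2]
    exact W.natTop t

/-- the first thresholds -/
noncomputable abbrev tA (m : ℕ) (N : Tops P → Finset P) (b : Tops P → ℕ) (θ : Tops P → P → ℕ) :
    P → ℕ := thX (twR m N b θ) (twT N) (fun x => θ (topOf x) x)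

/-- the second thresholds -/
noncomputable abbrev tB (m : ℕ) (N : Tops P → Finset P) (b : Tops P → ℕ) (θ : Tops P → P → ℕ) :
    P → ℕ := thX (twR m N b θ) (twT N) (fun x => thP m N b θ (topOf x) x)

/-- the thresholds for the component `k0` -/
noncomputable abbrev tK (m : ℕ) (N : Tops P → Finset P) (b : Tops P → ℕ) (θ : Tops P → P → ℕ)
    (k0 : Tops P) : P → ℕ := thX (twR m N b θ) (twT N) (fun x => thK m N b θ k0 (topOf x) x)

lemma WM.tK_eq (W : WM r m N b θ) (k0 : Tops P) (x : P) : tK m N b θ k0 x =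
    (by classical exact if topOf x = k0 then tB m N b θ x else tA m N b θ x) := by
  classical
  by_cases hx : x ∈ twR m N b θ
  · have h1 := W.twR_sys.cp x hx
    unfold tK tA tB
    rw [thX_of hx, thX_of hx, thX_of hx]
    unfold thK
    rw [h1]
    split_ifs <;> rfl
  · unfold tK tA tB
    rw [thX_not hx, thX_not hx, thX_not hx]
    unfold thK
    split_ifs <;> rfl

lemma WM.tB_twR (W : WM r m N b θ) {x : P} (hx : x ∈ twR m N b θ) :
    tB m N b θ x = θ (topOf (twT N x)) (twT N x) := by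
  unfold tB
  rw [thX_of hx, thP_not]
  rw [W.twR_sys.cp x hx]
  exact (mem_twR.mp hx).2

lemma tA_twR {x : P} (hx : x ∈ twR m N b θ) :
    tA m N b θ x = θ (topOf (twT N x)) (twT N x) := thX_of hx

lemma WM.twinPairK (W : WM r m N b θ) (k0 : Tops P) {x : P} (hx : x ∈ twR m N b θ) :
    TwinPair m (tK m N b θ k0) ((m + 1) * (m + 1) + 1) (twT N x) x := by
  classical
  have T := W.twR_sys
  have h0 := mem_twR.mp hx
  have h1 := mem_twY.mp h0.1
  have hlev : lev (twT N x) = 2 * m + 1 := by rw [T.lev hx]; exact h1.2.1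
  have hnY : twT N x ∉ twR m N b θ := fun h => T.nat x hx (T.sub h)
  obtain ⟨h3, h4⟩ := W.tw_th h0.1
  have h5 := W.twR_kap hx
  have hc := T.cp x hx
  have hth' : tK m N b θ k0 x = θ (topOf (twT N x)) (twT N x) := by
    rw [W.tK_eq]
    split_ifs
    · exact W.tB_twR hx
    · exact tA_twR hx
  have hth : tK m N b θ k0 (twT N x) = θ (topOf (twT N x)) (twT N x) := by
    rw [← hth']
    unfold tK
    rw [thX_not hnY, thX_of hx]
  refine ⟨?_, T.up x hx, ?_, ?_, ?_, ?_, ?_⟩
  · intro h
    exact T.nat x hx (h.symm ▸ h1.1)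
  · rw [hth]; exact h3
  · rw [hth, hth']
  · rw [hth, hlev]; omega
  · rw [hth]
    have h6 : ct m (θ (topOf (twT N x)) (twT N x) + 1) (twT N x) ≤
        ∑ y, (if twT N x ≤ y then lev y - m else 0) := by
      rw [ct_eq_sum]
      refine Finset.sum_le_sum fun y _ => ?_
      split_ifs
      · exact Nat.min_le_right _ _
      · exact le_rfl
    omega
  · rw [hth]
    have h6 := ct_succ m (θ (topOf (twT N x)) (twT N x) + 1) (twT N x)
    rw [hlev, Nat.min_eq_left (by omega)] at h6
    omega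

theorem WM.farK (W : WM r m N b θ) (k0 : Tops P) :
    FarT P m (R3 m N b θ) (∑ t, bK m N b θ k0 t) (hcan (R3 m N b θ) (tK m N b θ k0))
      ((m + 1) * (m + 1) + 1) := by
  choose B hB using W.natTopK k0
  exact farT_of_tops W.gt.H.gradedBelow hB W.twR_sys _ (fun x hx => W.twinPairK k0 hx)

lemma WM.sum_bK (W : WM r m N b θ) (k0 : Tops P) :
    (lv P m).card ≤ (∑ t, bK m N b θ k0 t) + 1 := by
  classical
  rw [← W.sum_b]
  have h1 : ∀ t ∈ (univ : Finset (Tops P)), b t ≤ bK m N b θ k0 t + if t = k0 then 1 else 0 := by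
    intro t _
    unfold bK
    by_cases h : t = k0 ∧ StT m N b θ t
    · obtain ⟨c, hc⟩ := h.2
      rw [if_pos h, if_pos h.1, hc.b]
    · rw [if_neg h]
      exact Nat.le_add_right _ _
  have h2 := Finset.sum_le_sum h1
  rw [Finset.sum_add_distrib, Finset.sum_ite_eq' univ k0, if_pos (mem_univ _)] at h2
  exact h2

/-- configurations with at most one defect -/
theorem WM.clean2 (W : WM r m N b θ) {n : ℕ} (hn : n < (m + 1) * (m + 1) + 1) (k0 : Tops P)
    (g : P → ℕ) (hg0 : ∀ x, x ∉ R3 m N b θ → g x = 0)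
    (h1 : ∀ y ∈ R3 m N b θ, ∀ x, x ∉ R3 m N b θ → y ⋖ x → topOf x = k0 → g y ≤ tB m N b θ x)
    (h2 : ∀ y ∈ R3 m N b θ, ∀ x, x ∉ R3 m N b θ → y ⋖ x → topOf x ≠ k0 → g y ≤ tA m N b θ x) :
    (1 + X : ℤ[X]) ^ ((lv P m).card - 1) ∣ ZB m (R3 m N b θ) g 0 n := by
  classical
  have h3 := (W.farK k0).clean g hg0 (fun z hz => ?_) n hn
  · refine dvd_trans (pow_dvd_pow _ ?_) h3
    have := W.sum_bK k0
    omega
  · obtain ⟨x, hx, hzx, hh⟩ := hcan_spec (θ := tK m N b θ k0) hz
    rw [hh, W.tK_eq]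
    have hzR := bd_mem hz
    split_ifs with h4
    · have := h1 z hzR x hx hzx h4
      omega
    · have := h2 z hzR x hx hzx h4
      omega

end Pool.Agent.GaussPoset
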