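import Pool.Agent.W_448s8_h94.DaB

/-!
Block D1 (MP_448cb3_co, S8): sums over disjoint up-sets, the elements of level `2 m + 1`.
-/

namespace Pool.Agent.GaussPoset

set_option linter.unusedSectionVars false

open Polynomial Finset

universe u

variable {P : Type u} [Fintype P] [PartialOrder P] [DecidableEq P] {r m : ℕ}
  {N : Tops P → Finset P} {b : Tops P → ℕ} {θ : Tops P → P → ℕ}

section General

variable {i k k' : ℕ} {x x' z z' : P}

lemma ez_eq (i k : ℕ) (z y : P) : ez i (fun _ => k) z y =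
    (by classical exact if z ≤ y then min k (lev y - i) else 0) := by
  unfold ez
  classical
  by_cases h : z ≤ y
  · rw [if_pos h]
  · rw [if_neg h]

/-- an element below two disjoint up-sets -/
lemma ct_two (hz : z < x) (hz' : z < x') (hd : ∀ w, x ≤ w → ¬ x' ≤ w) :
    min k (lev z - i) + ct i k x + ct i k x' ≤ ct i k z := by
  classical
  rw [ct_succ i k z, ct_eq_sum, ct_eq_sum, add_assoc, ← Finset.sum_add_distrib]
  refine Nat.add_le_add_left (Finset.sum_le_sum fun y _ => ?_) _
  by_cases h1 : x ≤ y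
  · rw [if_pos h1, if_neg (hd y h1), if_pos (hz.trans_le h1), add_zero]
  · rw [if_neg h1, zero_add]
    by_cases h2 : x' ≤ y
    · rw [if_pos h2, if_pos (hz'.trans_le h2)]
    · rw [if_neg h2]
      exact Nat.zero_le _

/-- two elements below disjoint up-sets -/
lemma sum_max_ge (hz : z < x) (hz' : z' < x') (hne : z ≠ z') (hd : ∀ w, x ≤ w → ¬ x' ≤ w)
    (h1 : ¬ x' ≤ z) (h2 : ¬ x ≤ z') :
    (min k (lev z - i) + ct i k x) + (min k' (lev z' - i) + ct i k' x') ≤
      ∑ y, max (ez i (fun _ => k) z y) (ez i (fun _ => k') z' y) := by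
  classical
  rw [ct_eq_sum, ct_eq_sum]
  have e1 : ∑ y : P, (if y = z then min k (lev z - i) else 0) = min k (lev z - i) := by
    rw [Finset.sum_ite_eq' univ z, if_pos (mem_univ _)]
  have e2 : ∑ y : P, (if y = z' then min k' (lev z' - i) else 0) = min k' (lev z' - i) := by
    rw [Finset.sum_ite_eq' univ z', if_pos (mem_univ _)]
  rw [← e1, ← e2, ← Finset.sum_add_distrib, ← Finset.sum_add_distrib, ← Finset.sum_add_distrib]
  refine Finset.sum_le_sum fun y _ => ?_
  rw [ez_eq, ez_eq]
  by_cases hy : y = z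
  · subst hy
    rw [if_pos rfl, if_neg (fun h => absurd (h.trans_lt hz) (lt_irrefl _)), if_neg hne,
      if_neg h1, if_pos le_rfl]
    simp only [add_zero]
    exact le_max_left _ _
  · rw [if_neg hy]
    by_cases hy' : y = z'
    · subst hy'
      rw [if_neg h2, if_pos rfl, if_neg (fun h => absurd (h.trans_lt hz') (lt_irrefl _)),
        if_pos le_rfl]
      simp only [add_zero, zero_add]
      exact le_max_right _ _
    · rw [if_neg hy']
      by_cases h3 : x ≤ y
      · rw [if_pos h3, if_neg (hd y h3), if_pos (hz.le.trans h3)]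
        simp only [add_zero, zero_add]
        exact le_max_left _ _
      · rw [if_neg h3]
        by_cases h4 : x' ≤ y
        · rw [if_pos h4, if_pos (hz'.le.trans h4)]
          simp only [zero_add]
          exact le_max_right _ _
        · rw [if_neg h4]
          exact Nat.zero_le _

/-- one element on every level -/
lemma ct_one {j : ℕ} (hk : j ≤ k) (hl : i + j ≤ lev x) : j * (j + 1) ≤ 2 * ct i k x := by
  have h1 := cst_ge (h := fun _ => k) (z := x) (i := i) (fun _ => 1)
    (fun l _ hl2 => one_le_nab hl2)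
  have h2 : ∑ l ∈ range (i + j + 1), (l - i) ≤
      ∑ l ∈ range (lev x + 1), min k (l - i) * 1 := by
    refine le_trans (Finset.sum_le_sum (g := fun l => min k (l - i) * 1) fun l hl => ?_)
      (Finset.sum_le_sum_of_subset fun l hl => ?_)
    · rw [mem_range] at hl
      rw [Nat.min_eq_right (by omega), Nat.mul_one]
    · rw [mem_range] at hl ⊢
      omega
  have h3 := sum_two i j
  rw [← Finset.sum_mul, Nat.mul_comm] at h3
  have h4 := h2.trans h1
  show j * (j + 1) ≤ 2 * cst i (fun _ => k) x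
  omega

/-- two elements on the levels up to `2 m` -/
lemma ct_sq (hk : m + 1 ≤ k) (hl : 2 * m + 1 ≤ lev z)
    (h2 : ∀ l, m < l → l ≤ 2 * m → 2 ≤ nab l z) : (m + 1) * (m + 1) ≤ ct m k z := by
  have h1 := cst_ge (h := fun _ => k) (z := z) (i := m) (fun l => if l ≤ 2 * m then 2 else 1)
    (by
      intro l hl1 hl2
      split_ifs with hc
      · exact h2 l hl1 hc
      · exact one_le_nab hl2)
  refine le_trans ?_ h1
  have h3 : ∑ l ∈ range (m + m + 1 + 1), min k (l - m) * (if l ≤ 2 * m then 2 else 1) ≤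
      ∑ l ∈ range (lev z + 1), min k (l - m) * (if l ≤ 2 * m then 2 else 1) :=
    Finset.sum_le_sum_of_subset fun l hl => by
      rw [mem_range] at hl ⊢
      omega
  refine le_trans (le_of_eq ?_) h3
  rw [Finset.sum_range_succ, if_neg (by omega), Nat.mul_one,
    show m + m + 1 - m = m + 1 by omega, Nat.min_eq_right hk]
  have h4 : ∑ l ∈ range (m + m + 1), min k (l - m) * (if l ≤ 2 * m then 2 else 1) =
      ∑ l ∈ range (m + m + 1), (l - m) * 2 := by
    refine Finset.sum_congr rfl fun l hl => ?_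
    rw [mem_range] at hl
    rw [if_pos (by omega), Nat.min_eq_right (by omega)]
  rw [h4, sum_two]
  ring

lemma ct_level (hl : lev x = 2 * m) (k : ℕ) : ct m k x = vs m k x := by
  unfold ct vs
  rw [cst_eq, hl, show 2 * m + 1 = m + (m + 1) by ring, Finset.sum_range_add,
    Finset.sum_eq_zero, zero_add]
  · refine Finset.sum_congr rfl fun u _ => ?_
    rw [Nat.add_sub_cancel_left]
  · intro l hl
    rw [mem_range] at hl
    rw [show l - m = 0 by omega, Nat.min_zero, Nat.zero_mul]

lemma ct_full_le (i k : ℕ) (z : P) : ct i k z ≤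
    ∑ x, (by classical exact if z ≤ x then lev x - i else 0) := by
  classical
  rw [ct_eq_sum]
  refine Finset.sum_le_sum fun y _ => ?_
  split_ifs
  · exact Nat.min_le_right _ _
  · exact le_rfl

end General

/-- two elements above an inner cell of a stair, level `2 m + 1` -/
lemma stair_two {t x : P} {Nc : Finset P} {co : P → ℕ × ℕ}
    (C : Chart t (fun c => c.1 ≤ c.2) Nc co) (hx : x ∈ Nc) (h1 : 1 ≤ (co x).1)
    (hl : lev x = 2 * m + 1) {k : ℕ} (hk : m < k) (hk2 : k ≤ 2 * m) : 2 ≤ nab k x := by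
  have h2 := C.lev x hx
  have h3 : (co x).1 ≤ (co x).2 := C.mem x hx
  rw [nab_chart C hx]
  have h4 := card_cellsAt_shift (l := k) (p := co x) h3 (by omega)
  omega

/-- two elements above an inner cell of a rectangle -/
lemma rect_two {t x : P} {Nc : Finset P} {co : P → ℕ × ℕ}
    (C : Chart t (fun _ => True) Nc co) (hx : x ∈ Nc) (h1 : 1 ≤ (co x).1) (h2 : 1 ≤ (co x).2)
    {k : ℕ} (hk : 1 ≤ k) (hk2 : k + 1 ≤ lev x) : 2 ≤ nab k x := by
  have h3 := C.lev x hx
  rw [nab_chart C hx]
  have h4 := card_cellsAt_true (l := k) (p := co x) (by omega)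
  omega

/-- the hypotheses -/
structure D1H (m : ℕ) (N : Tops P → Finset P) (b : Tops P → ℕ) (θ : Tops P → P → ℕ) : Prop where
  odd : m % 2 = 1
  hF : ∀ z x, lev z = 2 * m + 1 → z ∈ r2 (2 * m) N → FoldM m N b θ x → z ⋖ x →
    ∃ x', FoldM m N b θ x' ∧ topOf x ≠ topOf x' ∧ z ⋖ x'
  hQ : ∀ z x, lev z = 2 * m + 1 → QdM m N θ x → ¬ z ⋖ x
  S7 : S7M m N b θ

section Level

variable {z x x' : P}

/-- the elements of level `2 m + 1` of `R3` -/
inductive L1 (m : ℕ) (N : Tops P → Finset P) (b : Tops P → ℕ) (θ : Tops P → P → ℕ) (z : P) : Prop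
  | tw (h : z ∈ twY (2 * m) N) (hs : StT m N b θ (topOf z))
  | ff (x x' : P) (hx : FoldM m N b θ x) (hx' : FoldM m N b θ x') (ht : topOf x ≠ topOf x')
      (hzx : z ⋖ x) (hzx' : z ⋖ x')
  | full (h : ∀ x, z ⋖ x → FullM m N θ x)

lemma D1H.l1 (D : D1H m N b θ) (W : WM r m N b θ) (hz : z ∈ R3 m N b θ) (hl : lev z = 2 * m + 1) :
    L1 m N b θ z := by
  have H := W.gt.H
  have hm := W.ten
  rw [mem_sdiff] at hz
  by_cases hY : z ∈ twY (2 * m) N
  · refine L1.tw hY ?_
    by_contra hs
    exact hz.2 (mem_twR.mpr ⟨hY, hs⟩)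
  · have hz2 : z ∈ r2 (2 * m) N := mem_sdiff.mpr ⟨hz.1, hY⟩
    rcases W.class D.S7 hz2 hl with ⟨x, hx, hp⟩ | ⟨x, hx, hp⟩ | ⟨x, x', hx, hx', ht, hzx, hzx'⟩ |
      ⟨x, x', hx, hx', ht, hzx, hzx'⟩ | ⟨x, x', hx, hx', h1, ht, hzx, hzx'⟩ |
      ⟨x, x', Nc, co, hx, hcx, hx', hcx', hzx, hzx'⟩ | h
    · exfalso
      obtain ⟨x', -, ht, hzx'⟩ := D.hF z x hl hz2 hx hp.1
      rw [hp.2 x' hzx'] at ht
      exact ht rfl
    · exact (D.hQ z x hl hx hp.1).elim
    · exact (D.hQ z x' hl hx' hzx').elim
    · exact L1.ff x x' hx hx' ht hzx hzx'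
    · exfalso
      obtain ⟨y, hy, hty, hzy⟩ := D.hF z x hl hz2 hx hzx
      have hne : x ≠ x' := fun h => ht (by rw [h])
      rcases uc_pair H hzx hzx' hne hzy with h | h
      · rw [h] at hty
        exact hty rfl
      · rw [h] at hy
        have e1 := hy.th
        have e2 := hx'.th
        have e3 := hy.lev
        omega
    · exfalso
      have hFx : FoldM m N b θ x := ⟨Nc, co, hx, hcx⟩
      obtain ⟨y, hy, hty, hzy⟩ := D.hF z x hl hz2 hFx hzx
      have hne : x ≠ x' := by
        rintro rfl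
        rw [hcx] at hcx'
        simp only [Prod.mk.injEq] at hcx'
        omega
      have htt := (W.cc_full hx hcx hx' hcx').2
      rcases uc_pair H hzx hzx' hne hzy with h | h
      · rw [h] at hty
        exact hty rfl
      · rw [h, htt] at hty
        exact hty rfl
    · exact L1.full h

/-- the fold ends in the chosen chart -/
lemma D1H.fold (D : D1H m N b θ) (W : WM r m N b θ) (hx : FoldM m N b θ x) :
    ∃ Nc co, InS2 m N b θ x Nc co ∧ co x = (m, m) := by
  have hm := W.ten
  have hodd := D.odd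
  have hl := hx.lev
  have hth := hx.th
  have h5 := hx.nab (u := m - 1) (by omega)
  rw [show m + (m - 1) = 2 * m - 1 by omega] at h5
  have h6 : nF m (m - 1) = 1 := by
    unfold nF
    omega
  rw [h6] at h5
  rcases W.k2 (W.low hl.le) with ⟨h, -⟩ | ⟨Nc, co, hs, h⟩ | ⟨Nc, co, hs, h⟩ | h
  · have := h.th
    omega
  · refine ⟨Nc, co, h, ?_⟩
    have h2 := h.ins.stair.chart.lev x h.ins.mem
    have h3 : (co x).1 ≤ (co x).2 := h.ins.stair.chart.mem x h.ins.mem
    have h7 := h.ins.fst
    rw [nab_chart h.ins.stair.chart h.ins.mem] at h5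
    have h4 := card_cellsAt_shift (l := 2 * m - 1) (p := co x) h3 (by omega)
    exact Prod.ext (by simp only; omega) (by simp only; omega)
  · exfalso
    have := rect_two h.rect.chart h.mem h.fst h.snd (k := 2 * m - 1) (by omega) (by omega)
    omega
  · have := h.th
    omega

lemma FoldM.not_full (hm : 2 ≤ m) (hx : FoldM m N b θ x) (h : FullM m N θ x) : False := by
  have e1 := hx.th
  have e2 := h.th
  have e3 := hx.lev
  omega

/-- the covers of level `2 m` -/
lemma D1H.cov (D : D1H m N b θ) (W : WM r m N b θ) (hz : z ∈ R3 m N b θ)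
    (hl : lev z = 2 * m + 1) (hzx : z ⋖ x) : (FullM m N θ x ∧
      thP m N b θ (topOf x) x = lev x - m) ∨ ∃ Nc co, InS2 m N b θ x Nc co := by
  have H := W.gt.H
  have HN := W.natSys
  have hm := W.ten
  have hlx : lev x = 2 * m := by
    have := (H.covBy_iff.mp hzx).2
    omega
  rcases W.k2 (W.low hlx.le) with ⟨h, h'⟩ | ⟨Nc, co, hs, h⟩ | ⟨Nc, co, hs, h⟩ | h
  · exact Or.inl ⟨h, h'⟩
  · exact Or.inr ⟨Nc, co, h⟩
  · exfalso
    rcases D.l1 W hz hl with ⟨hY, hs'⟩ | ⟨x1, x2, hx1, hx2, ht, hzx1, hzx2⟩ | h1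
    · have h1 := twT_spec (mem_twY.mp hY).2.2
      have h2 : twT N z ⋖ x := (cov_of_up h1.2).mpr hzx
      have h3 := HN.cp _ _ h2.le h1.1
      have h4 := W.twSys.cp z hY
      rw [← h3, h4] at hs
      exact hs hs'
    · have hne : x1 ≠ x2 := fun h => ht (by rw [h])
      have hfold : FoldM m N b θ x := by
        rcases uc_pair H hzx1 hzx2 hne hzx with h | h
        · rw [h]; exact hx1
        · rw [h]; exact hx2
      obtain ⟨Nc', co', h', -⟩ := D.fold W hfold
      exact hs ⟨_, h'.sc⟩
    · have h2 := (h1 x hzx).th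
      have h3 := h.th
      have h4 := h.fst
      have h5 := h.snd
      have h6 := h.rect.chart.lev x h.mem
      omega
  · exact (D.hQ z x hl h hzx).elim

/-- two elements above on the levels `m + 1, ..., 2 m` -/
lemma D1H.two (D : D1H m N b θ) (W : WM r m N b θ) (hz : z ∈ R3 m N b θ) {k : ℕ} (hk : m < k)
    (hk2 : k ≤ 2 * m) : 2 ≤ nab k z := by
  have H := W.gt.H
  have HN := W.natSys
  have hm := W.ten
  have hzU := (mem_sdiff.mp hz).1
  have hlz := W.lt_lev hzU
  obtain ⟨w, hzw, hlw⟩ := exists_above' (x := z) (j := 2 * m + 1) (by omega)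
  have hmono := nab_mono (l := k) hzw
  have htw : ∀ {y : P}, y ∈ twY (2 * m) N → y = w → 2 ≤ nab k (twT N y) → 2 ≤ nab k z := by
    intro y hy hyw h
    subst hyw
    have h1 := twT_spec (mem_twY.mp hy).2.2
    have h2 := W.twSys.lev hy
    have h3 := nab_le_of_up h1.2 (k := k) (by omega)
    omega
  by_cases hwR : w ∈ R3 m N b θ
  · rcases D.l1 W hwR hlw with ⟨hY, hs⟩ | ⟨x1, x2, hx1, hx2, ht, hzx1, hzx2⟩ | h1
    · obtain ⟨Nc, co, h⟩ := W.twS_stair hY hs
      refine htw hY rfl ?_
      have h2 := W.twSys.lev hY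
      exact stair_two h.ins.stair.chart h.ins.mem h.ins.fst (by omega) hk hk2
    · have h2 := W.nab_join hlw hzx1 hzx2 ht hk2
      have h3 := hx1.lev
      have h4 := hx2.lev
      have h5 := one_le_nab (z := x1) (l := k) (by omega)
      have h6 := one_le_nab (z := x2) (l := k) (by omega)
      omega
    · have hne : w < (topOf w : P) := lt_of_le_of_ne (le_topOf w) (by
        intro h
        have := (topOf w).2
        rw [← h] at this
        omega)
      obtain ⟨x, hwx, -⟩ := Hul.exists_cov hne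
      have h2 := (H.covBy_iff.mp hwx).2
      have h3 := (h1 x hwx).two w (mem_sdiff.mp hwR).1 hwx.le k (by omega) (by omega)
      omega
  · by_cases hwU : w ∈ unnat N
    · have hY : w ∈ twR m N b θ := by
        by_contra hcon
        exact hwR (mem_sdiff.mpr ⟨hwU, hcon⟩)
      obtain ⟨Nc, co, h⟩ := W.twR_rect hY
      have h2 := W.twSys.lev (mem_twR.mp hY).1
      refine htw (mem_twR.mp hY).1 rfl ?_
      exact rect_two h.rect.chart h.mem h.fst h.snd (by omega) (by omega)
    · rcases W.k2 hwU with ⟨h, -⟩ | ⟨Nc, co, hs, h⟩ | ⟨Nc, co, hs, h⟩ | h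
      · exact h.two z hzU hzw k (by omega) (by omega)
      · have := stair_two h.ins.stair.chart h.ins.mem h.ins.fst hlw hk hk2
        omega
      · have := rect_two h.rect.chart h.mem h.fst h.snd (k := k) (by omega) (by omega)
        omega
      · have := h.lev
        omega

end Level

end Pool.Agent.GaussPoset
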