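import Pool.Agent.W_448s8_h76.QdA
import Pool.Agent.W_448fw_h5.FwE

/-!
The quadrics: a chain with `a` elements above, then two incomparable elements, then a chain with
`b` elements.  Numbers grow downwards; `a` and `a + 1` are the two incomparable elements.
-/

namespace Pool.Agent.GaussPoset

set_option linter.unusedSectionVars false

open Polynomial Finset

universe u

namespace Qd

variable {a b : ℕ}

lemma le_iff' {x y : Qd a b} : x ≤ y ↔ x = y ∨ (y.val < x.val ∧ ¬ (y.val = a ∧ x.val = a + 1)) := by
  rw [le_iff]
  constructor
  · rintro (h | h)
    · exact Or.inl (Qd.ext h)
    · exact Or.inr h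
  · rintro (h | h)
    · exact Or.inl (by rw [h])
    · exact Or.inr h

/-- the level of an element -/
def fl (x : Qd a b) : ℕ := if x.val ≤ a then x.val else x.val - 1

lemma fl_strictAnti : StrictAnti (fl : Qd a b → ℕ) := by
  intro x y h
  rw [lt_iff] at h
  unfold fl
  split_ifs <;> omega

lemma lev_eq (x : Qd a b) : lev x = fl x := by
  apply le_antisymm
  · exact lev_le fl_strictAnti x
  · have key : ∀ n (x : Qd a b), x.val = n → fl x ≤ lev x := by
      intro n
      induction n using Nat.strong_induction_on with
      | _ n ih =>
        intro x hx
        have hxl := x.lt
        by_cases h0 : fl x = 0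
        · rw [h0]; exact Nat.zero_le _
        · by_cases h1 : x.val = a + 1
          · have ha : 1 ≤ a := by
              unfold fl at h0
              rw [if_neg (by omega)] at h0
              omega
            have h2 := ih (a - 1) (by omega) (mk (a - 1) (by omega)) rfl
            have h3 : x < (mk (a - 1) (by omega) : Qd a b) := by
              rw [lt_iff, val_mk]; omega
            have h4 := lev_strictAnti h3
            unfold fl at h2 ⊢
            rw [val_mk, if_pos (by omega)] at h2
            rw [if_neg (by omega)]
            omega
          · have hn : 1 ≤ x.val := by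
              by_contra hcon
              apply h0
              unfold fl
              rw [if_pos (by omega)]
              omega
            have h2 := ih (x.val - 1) (by omega) (mk (x.val - 1) (by omega)) rfl
            have h3 : x < (mk (x.val - 1) (by omega) : Qd a b) := by
              rw [lt_iff, val_mk]; omega
            have h4 := lev_strictAnti h3
            unfold fl at h2 ⊢
            rw [val_mk] at h2
            split_ifs at h2 ⊢ <;> omega
    exact key _ x rfl

lemma gradedBelow : GradedBelow (Qd a b) := by
  intro z x hzx
  rw [lt_iff] at hzx
  have hz := z.lt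
  simp only [lev_eq]
  by_cases h1 : x.val + 1 = a ∧ z.val = a + 1
  · refine ⟨z, le_refl z, ?_, ?_⟩
    · rw [lt_iff]; omega
    · unfold fl
      rw [if_neg (by omega), if_pos (by omega)]
      omega
  · by_cases h2 : x.val = a
    · refine ⟨mk (a + 2) (by omega), ?_, ?_, ?_⟩
      · rw [le_iff', val_mk]
        by_cases h3 : z.val = a + 2
        · exact Or.inl (ext (by rw [val_mk, h3]))
        · exact Or.inr (by omega)
      · rw [lt_iff, val_mk]; omega
      · unfold fl
        rw [val_mk, if_neg (by omega), if_pos (by omega)]
        omega
    · refine ⟨mk (x.val + 1) (by omega), ?_, ?_, ?_⟩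
      · rw [le_iff', val_mk]
        by_cases h3 : z.val = x.val + 1
        · exact Or.inl (ext (by rw [val_mk, h3]))
        · exact Or.inr (by omega)
      · rw [lt_iff, val_mk]; omega
      · unfold fl
        rw [val_mk]
        split_ifs <;> omega

end Qd

end Pool.Agent.GaussPoset
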