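import Mathlib

/-!
The generating function of antitone maps `Fin n → {0, …, N - 1}`.
-/

namespace Pool.Agent.GaussPoset

open Polynomial Finset

open Classical in
/-- antitone maps with values `< N` -/
noncomputable def AT (n N : ℕ) : Finset (Fin n → ℕ) :=
  (Fintype.piFinset fun _ => range N).filter Antitone

lemma mem_AT {n N : ℕ} {f : Fin n → ℕ} : f ∈ AT n N ↔ (∀ i, f i < N) ∧ Antitone f := by
  unfold AT
  rw [mem_filter, Fintype.mem_piFinset]
  simp only [mem_range]

/-- their generating function -/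
noncomputable def SA (n N : ℕ) : ℤ[X] := ∑ f ∈ AT n N, X ^ (∑ i, f i)

lemma SA_zero_left (N : ℕ) : SA 0 N = 1 := by
  unfold SA
  have h : AT 0 N = {Fin.elim0} := by
    ext f
    rw [mem_AT, mem_singleton]
    constructor
    · intro _; exact Subsingleton.elim _ _
    · intro _; exact ⟨fun i => i.elim0, fun i => i.elim0⟩
  rw [h, sum_singleton]
  simp

lemma SA_zero_right (n : ℕ) : SA (n + 1) 0 = 0 := by
  unfold SA
  have h : AT (n + 1) 0 = ∅ := by
    ext f
    rw [mem_AT]
    constructor
    · intro h; exact absurd (h.1 0) (Nat.not_lt_zero _)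
    · intro h; exact absurd h (notMem_empty _)
  rw [h, sum_empty]

lemma SA_succ (n N : ℕ) : SA (n + 1) (N + 1) = SA (n + 1) N + X ^ N * SA n (N + 1) := by
  classical
  unfold SA
  rw [← Finset.sum_filter_add_sum_filter_not (AT (n + 1) (N + 1)) (fun f => f 0 ≠ N)]
  congr 1
  · refine Finset.sum_congr ?_ fun _ _ => rfl
    ext f
    rw [mem_filter, mem_AT, mem_AT]
    constructor
    · rintro ⟨⟨h1, h2⟩, h3⟩
      refine ⟨fun i => ?_, h2⟩
      have h4 := h1 0
      have h5 := h2 (Fin.zero_le i)
      omega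
    · rintro ⟨h1, h2⟩
      refine ⟨⟨fun i => (h1 i).trans (Nat.lt_succ_self _), h2⟩, ?_⟩
      have := h1 0
      omega
  · rw [Finset.mul_sum]
    refine Finset.sum_bij' (fun f _ => Fin.tail f) (fun g _ => Fin.cons N g) ?_ ?_ ?_ ?_ ?_
    · intro f hf
      rw [mem_filter, mem_AT] at hf
      rw [mem_AT]
      refine ⟨fun i => hf.1.1 _, fun i j hij => ?_⟩
      exact hf.1.2 (Fin.succ_le_succ_iff.mpr hij)
    · intro g hg
      rw [mem_AT] at hg
      rw [mem_filter, mem_AT]
      refine ⟨⟨fun i => ?_, fun i j hij => ?_⟩, ?_⟩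
      · refine Fin.cases ?_ (fun i => ?_) i
        · rw [Fin.cons_zero]; omega
        · rw [Fin.cons_succ]; exact hg.1 i
      · revert hij
        refine Fin.cases ?_ (fun i => ?_) i
        · refine Fin.cases ?_ (fun j => ?_) j
          · intro _; exact le_rfl
          · intro _
            rw [Fin.cons_zero, Fin.cons_succ]
            exact Nat.lt_succ_iff.mp (hg.1 j)
        · refine Fin.cases ?_ (fun j => ?_) j
          · intro hij
            exact absurd hij (not_le_of_gt (Fin.succ_pos i))
          · intro hij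
            rw [Fin.cons_succ, Fin.cons_succ]
            exact hg.2 (Fin.succ_le_succ_iff.mp hij)
      · rw [Fin.cons_zero]
        exact fun h => h rfl
    · intro f hf
      rw [mem_filter] at hf
      have h0 : f 0 = N := not_not.mp hf.2
      rw [← h0]
      exact Fin.cons_self_tail f
    · intro g _
      exact Fin.tail_cons _ _
    · intro f hf
      rw [mem_filter] at hf
      have h0 : f 0 = N := not_not.mp hf.2
      rw [Fin.sum_univ_succ, h0, pow_add]
      rfl

theorem SA_prod (n N : ℕ) : SA n N * ∏ i ∈ range n, (1 - (X : ℤ[X]) ^ (i + 1)) =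
    ∏ i ∈ range n, (1 - (X : ℤ[X]) ^ (N + i)) := by
  induction n generalizing N with
  | zero => rw [SA_zero_left]; simp
  | succ n ihn =>
    induction N with
    | zero =>
      rw [SA_zero_right, zero_mul, Finset.prod_range_succ', Nat.add_zero, pow_zero, sub_self,
        mul_zero]
    | succ N ihN =>
      rw [SA_succ, add_mul, ihN]
      have h1 : X ^ N * SA n (N + 1) * ∏ i ∈ range (n + 1), (1 - (X : ℤ[X]) ^ (i + 1)) =
          X ^ N * (1 - X ^ (n + 1)) * (SA n (N + 1) * ∏ i ∈ range n, (1 - (X : ℤ[X]) ^ (i + 1))) := by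
        rw [Finset.prod_range_succ]; ring
      rw [h1, ihn]
      have h2 : ∏ i ∈ range (n + 1), (1 - (X : ℤ[X]) ^ (N + i)) =
          (1 - X ^ N) * ∏ i ∈ range n, (1 - (X : ℤ[X]) ^ (N + 1 + i)) := by
        rw [Finset.prod_range_succ', Nat.add_zero, mul_comm]
        congr 1
        refine Finset.prod_congr rfl fun i _ => ?_
        rw [show N + (i + 1) = N + 1 + i by ring]
      have h3 : ∏ i ∈ range (n + 1), (1 - (X : ℤ[X]) ^ (N + 1 + i)) =
          (∏ i ∈ range n, (1 - (X : ℤ[X]) ^ (N + 1 + i))) * (1 - X ^ (N + 1 + n)) :=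
        Finset.prod_range_succ _ _
      rw [h2, h3, show N + 1 + n = N + (n + 1) by ring, pow_add]
      ring

end Pool.Agent.GaussPoset
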