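import Pool.Agent.W_448s8_h94.QdA
import Pool.Agent.W_448s8_h94.QdB

/-!
The complete quadric `1^a 2 1^a` is Gaussian.
-/

namespace Pool.Agent.GaussPoset

set_option linter.unusedSectionVars false

open Polynomial Finset

/-- order preserving for the quadric, as a condition on numbers -/
def MQ (a n : ℕ) (s : Fin n → ℕ) : Prop :=
  ∀ i j : Fin n, i.val < j.val → ¬ (i.val = a ∧ j.val = a + 1) → s j ≤ s i

open Classical in
/-- order preserving maps of the quadric -/
noncomputable def MQs (a n N : ℕ) : Finset (Fin n → ℕ) :=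
  (Fintype.piFinset fun _ => range N).filter (fun s => MQ a n s)

lemma mem_MQs {a n N : ℕ} {s : Fin n → ℕ} : s ∈ MQs a n N ↔ (∀ i, s i < N) ∧ MQ a n s := by
  classical
  unfold MQs
  rw [mem_filter, Fintype.mem_piFinset]
  simp only [mem_range]

lemma U_Qd (a b m : ℕ) : U (Qd a b) m = ∑ s ∈ MQs a (a + b + 2) (m + 1), (X : ℤ[X]) ^ (∑ i, s i) := by
  classical
  unfold U
  refine Finset.sum_bij' (fun σ _ => (fun i : Fin (a + b + 2) => ((σ i : Fin (m + 1)) : ℕ)))
    (fun s hs => (fun x : Qd a b => ⟨s x, (mem_MQs.mp hs).1 x⟩)) ?_ ?_ ?_ ?_ ?_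
  · intro σ hσ
    have hσ2 := (Finset.mem_filter.mp hσ).2
    rw [mem_MQs]
    refine ⟨fun i => (σ i).2, fun i j hij hne => ?_⟩
    have h1 : @LE.le (Qd a b) _ j i := Or.inr ⟨hij, hne⟩
    exact hσ2 h1
  · intro s hs
    refine Finset.mem_filter.mpr ⟨@mem_univ _ (_) _, fun x y hxy => ?_⟩
    rw [Qd.le_iff'] at hxy
    rcases hxy with rfl | hxy
    · exact le_rfl
    · exact (mem_MQs.mp hs).2 y x hxy.1 hxy.2
  · intro σ _
    rfl
  · intro s _
    rfl
  · intro σ _
    rfl

lemma MQ_split (a n N : ℕ) (hn : a + 1 < n) : ∑ s ∈ MQs a n (N + 1), (X : ℤ[X]) ^ (∑ i, s i) =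
    SA n (N + 1) + X ^ (a + 1) * SA n N := by
  classical
  set A : Fin n := ⟨a, by omega⟩ with hA
  set B : Fin n := ⟨a + 1, hn⟩ with hB
  have hAB : A ≠ B := by
    intro h
    have := congrArg Fin.val h
    simp only [hA, hB] at this
    omega
  rw [← Finset.sum_filter_add_sum_filter_not (MQs a n (N + 1)) (fun s => s B ≤ s A)]
  congr 1
  · unfold SA
    refine Finset.sum_congr ?_ fun _ _ => rfl
    ext f
    rw [mem_filter, mem_MQs, mem_AT]
    constructor
    · rintro ⟨⟨h1, h2⟩, h3⟩
      refine ⟨h1, fun i j hij => ?_⟩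
      rcases eq_or_lt_of_le hij with rfl | hlt
      · exact le_rfl
      · by_cases h4 : i.val = a ∧ j.val = a + 1
        · have hi : i = A := Fin.ext h4.1
          have hj : j = B := Fin.ext h4.2
          rw [hi, hj]; exact h3
        · exact h2 i j hlt h4
    · rintro ⟨h1, h2⟩
      refine ⟨⟨h1, fun i j hij _ => h2 (le_of_lt hij)⟩, h2 ?_⟩
      change a ≤ a + 1
      omega
  · have hswA : (Equiv.swap A B) A = B := Equiv.swap_apply_left A B
    have hswB : (Equiv.swap A B) B = A := Equiv.swap_apply_right A B
    have hswO : ∀ k, k ≠ A → k ≠ B → (Equiv.swap A B) k = k := fun k h1 h2 =>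
      Equiv.swap_apply_of_ne_of_ne h1 h2
    have hswsw : ∀ k, (Equiv.swap A B) ((Equiv.swap A B) k) = k := fun k => by
      rw [← Equiv.Perm.mul_apply, Equiv.swap_mul_self, Equiv.Perm.one_apply]
    generalize (Equiv.swap A B) = sw at hswA hswB hswO hswsw
    have hcA : ∀ k : Fin n, k = A ∨ k = B ∨ (k ≠ A ∧ k ≠ B ∧ sw k = k ∧ k.val ≠ a ∧ k.val ≠ a + 1) := by
      intro k
      by_cases h1 : k = A
      · exact Or.inl h1
      · by_cases h2 : k = B
        · exact Or.inr (Or.inl h2)
        · refine Or.inr (Or.inr ⟨h1, h2, hswO k h1 h2, ?_, ?_⟩)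
          · intro h; exact h1 (Fin.ext h)
          · intro h; exact h2 (Fin.ext h)
    have hAv : A.val = a := rfl
    have hBv : B.val = a + 1 := rfl
    have hcnt : ∑ k : Fin n, (if k.val ≤ a then 1 else 0) = a + 1 := by
      rw [Finset.sum_boole]
      have h1 : (univ.filter (fun k : Fin n => k.val ≤ a)).card = (range (a + 1)).card := by
        refine Finset.card_bij (fun k _ => k.val) ?_ ?_ ?_
        · intro k hk
          rw [mem_filter] at hk
          rw [mem_range]
          omega
        · intro k _ k' _ h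
          exact Fin.ext h
        · intro y hy
          rw [mem_range] at hy
          exact ⟨⟨y, by omega⟩, by rw [mem_filter]; exact ⟨mem_univ _, by change y ≤ a; omega⟩, rfl⟩
      rw [h1, card_range]
      rfl
    rw [SA, Finset.mul_sum]
    -- facts for one side
    have hs1 : ∀ s ∈ (MQs a n (N + 1)).filter (fun s => ¬ s B ≤ s A), ∀ k : Fin n, k.val ≤ a →
        s A + 1 ≤ s (sw k) := by
      intro s hs k hk
      rw [mem_filter, mem_MQs] at hs
      obtain ⟨⟨h1, h2⟩, h3⟩ := hs
      rcases hcA k with h | h | h
      · rw [h, hswA]; omega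
      · rw [h, hBv] at hk; omega
      · rw [h.2.2.1]
        have h4 := h2 k B (by omega) (by omega)
        omega
    refine Finset.sum_bij' (fun s _ => fun k => s (sw k) - (if k.val ≤ a then 1 else 0))
      (fun g _ => fun k => g (sw k) + (if (sw k).val ≤ a then 1 else 0)) ?_ ?_ ?_ ?_ ?_
    · intro s hs
      have hs2 := hs1 s hs
      rw [mem_filter, mem_MQs] at hs
      obtain ⟨⟨h1, h2⟩, h3⟩ := hs
      rw [mem_AT]
      have hNB := h1 B
      refine ⟨fun k => ?_, fun i j hij => ?_⟩
      · have h4 := h1 (sw k)
        by_cases hk : k.val ≤ a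
        · rw [if_pos hk]; omega
        · rw [if_neg hk]
          rcases hcA k with h | h | h
          · rw [h, hAv] at hk; omega
          · rw [h, hswB]; omega
          · rw [h.2.2.1]
            have h5 := h2 A k (by omega) (by omega)
            omega
      · change s (sw j) - _ ≤ s (sw i) - _
        rcases eq_or_lt_of_le hij with rfl | hlt
        · exact le_rfl
        · have hlt' : i.val < j.val := hlt
          by_cases hj : j.val ≤ a
          · have hi : i.val ≤ a := by omega
            rw [if_pos hj, if_pos hi]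
            have hiA : i ≠ A := by rintro rfl; omega
            have hiB : i ≠ B := by rintro rfl; omega
            rw [hswO i hiA hiB]
            rcases hcA j with h | h | h
            · rw [h, hswA]
              have := h2 i B (by rw [hBv]; omega) (by rw [hBv]; rw [h, hAv] at hlt'; omega)
              omega
            · rw [h, hBv] at hj; omega
            · rw [h.2.2.1]
              have := h2 i j hlt' (by omega)
              omega
          · rw [if_neg hj]
            have h6 : s (sw j) ≤ s A := by
              rcases hcA j with h | h | h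
              · rw [h, hAv] at hj; omega
              · rw [h, hswB]
              · rw [h.2.2.1]
                exact h2 A j (by omega) (by omega)
            by_cases hi : i.val ≤ a
            · rw [if_pos hi]
              have := hs2 i hi
              omega
            · rw [if_neg hi]
              have hjB : j ≠ B := by rintro rfl; omega
              have hjA : j ≠ A := by rintro rfl; omega
              rw [hswO j hjA hjB]
              rcases hcA i with h | h | h
              · rw [h, hAv] at hi; omega
              · rw [h, hswB]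
                have := h2 A j (by rw [h, hBv] at hlt'; omega) (by rw [h, hBv] at hlt'; omega)
                omega
              · rw [h.2.2.1]
                have := h2 i j hlt' (by omega)
                omega
    · intro g hg
      rw [mem_AT] at hg
      obtain ⟨h1, h2⟩ := hg
      rw [mem_filter, mem_MQs]
      have hanti : ∀ i j : Fin n, i.val ≤ j.val → g j ≤ g i := fun i j h => h2 h
      refine ⟨⟨fun k => ?_, fun i j hij hne => ?_⟩, ?_⟩
      · have := h1 (sw k)
        split_ifs <;> omega
      · change g (sw j) + (if (sw j).val ≤ a then 1 else 0) ≤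
          g (sw i) + (if (sw i).val ≤ a then 1 else 0)
        have hval : ∀ k : Fin n,
            (k.val = a ∧ g (sw k) + (if (sw k).val ≤ a then 1 else 0) = g B) ∨
            (k.val = a + 1 ∧ g (sw k) + (if (sw k).val ≤ a then 1 else 0) = g A + 1) ∨
            (k.val < a ∧ g (sw k) + (if (sw k).val ≤ a then 1 else 0) = g k + 1) ∨
            (a + 1 < k.val ∧ g (sw k) + (if (sw k).val ≤ a then 1 else 0) = g k) := by
          intro k
          rcases hcA k with hk | hk | hk
          · left
            rw [hk, hswA, if_neg (by rw [hBv]; omega)]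
            exact ⟨hAv, rfl⟩
          · right; left
            rw [hk, hswB, if_pos (by rw [hAv])]
            exact ⟨hBv, rfl⟩
          · right; right
            rw [hk.2.2.1]
            by_cases h : k.val ≤ a
            · left
              rw [if_pos h]
              exact ⟨by omega, rfl⟩
            · right
              rw [if_neg h]
              exact ⟨by omega, rfl⟩
        rcases hval i with ⟨hi, hi'⟩ | ⟨hi, hi'⟩ | ⟨hi, hi'⟩ | ⟨hi, hi'⟩ <;>
          rcases hval j with ⟨hj, hj'⟩ | ⟨hj, hj'⟩ | ⟨hj, hj'⟩ | ⟨hj, hj'⟩ <;>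
          rw [hi', hj'] <;>
          first
          | omega
          | (have := hanti B j (by omega); omega)
          | (have := hanti A j (by omega); omega)
          | (have := hanti i B (by omega); omega)
          | (have := hanti i A (by omega); omega)
          | (have := hanti i j (by omega); omega)
      · change ¬ (g (sw B) + (if (sw B).val ≤ a then 1 else 0) ≤
          g (sw A) + (if (sw A).val ≤ a then 1 else 0))
        rw [hswA, hswB, if_pos (by rw [hAv]), if_neg (by rw [hBv]; omega)]
        have := hanti A B (by omega)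
        omega
    · intro s hs
      have hs2 := hs1 s hs
      funext k
      change s (sw (sw k)) - (if (sw k).val ≤ a then 1 else 0) + (if (sw k).val ≤ a then 1 else 0) = s k
      split_ifs with h
      · have := hs2 (sw k) h
        rw [hswsw] at this ⊢
        omega
      · rw [hswsw]; omega
    · intro g _
      funext k
      change g (sw (sw k)) + (if (sw (sw k)).val ≤ a then 1 else 0) - (if k.val ≤ a then 1 else 0) = g k
      rw [hswsw]
      omega
    · intro s hs
      have hs2 := hs1 s hs
      rw [← pow_add]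
      congr 1
      rw [← hcnt, ← Finset.sum_add_distrib, ← Equiv.sum_comp sw s]
      refine Finset.sum_congr rfl fun k _ => ?_
      split_ifs with h
      · have := hs2 k h
        omega
      · omega

theorem U_Qd_eq (a b m : ℕ) :
    U (Qd a b) m = SA (a + b + 2) (m + 1) + X ^ (a + 1) * SA (a + b + 2) m := by
  rw [U_Qd, MQ_split a (a + b + 2) m (by omega)]

theorem isGaussian_Qd (a : ℕ) : IsGaussian (Qd a a) := by
  have hcard : Fintype.card (Qd a a) = 2 * a + 2 := by
    have h : Fintype.card (Qd a a) = a + a + 2 := Fintype.card_fin _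
    omega
  refine ⟨fun i => if (i : ℕ) < 2 * a + 1 then (i : ℕ) + 1 else a + 1, fun i => ?_, fun m => ?_⟩
  · dsimp only
    split_ifs <;> omega
  · have hp : ∀ c : ℕ, ∏ i : Fin (Fintype.card (Qd a a)),
        (1 - (X : ℤ[X]) ^ (c + (if (i : ℕ) < 2 * a + 1 then (i : ℕ) + 1 else a + 1))) =
        (∏ i ∈ range (2 * a + 1), (1 - (X : ℤ[X]) ^ (c + 1 + i))) * (1 - X ^ (c + a + 1)) := by
      intro c
      rw [← Finset.prod_range (fun i => (1 - (X : ℤ[X]) ^
        (c + (if i < 2 * a + 1 then i + 1 else a + 1)))), hcard, Finset.prod_range_succ,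
        if_neg (by omega)]
      congr 1
      refine Finset.prod_congr rfl fun i hi => ?_
      rw [mem_range] at hi
      rw [if_pos hi, show c + (i + 1) = c + 1 + i by ring]
    have hp0 := hp 0
    simp only [Nat.zero_add] at hp0
    rw [hp0, hp m, U_Qd_eq]
    have hne : (1 + X ^ (a + 1) : ℤ[X]) ≠ 0 := by
      intro h
      have := congrArg (fun f : ℤ[X] => f.eval 1) h
      simp at this
    refine mul_right_cancel₀ hne ?_
    have e1 := SA_prod (a + a + 2) (m + 1)
    have e2 := SA_prod (a + a + 2) m
    have e3 : ∏ i ∈ range (a + a + 2), (1 - (X : ℤ[X]) ^ (i + 1)) =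
        (∏ i ∈ range (2 * a + 1), (1 - (X : ℤ[X]) ^ (1 + i))) * (1 - X ^ (a + 1)) *
          (1 + X ^ (a + 1)) := by
      rw [show a + a + 2 = (2 * a + 1) + 1 by ring, Finset.prod_range_succ, mul_assoc]
      congr 1
      · refine Finset.prod_congr rfl fun i _ => ?_
        rw [add_comm]
      · rw [show 2 * a + 1 + 1 = (a + 1) + (a + 1) by ring, pow_add]
        ring
    have e4 : ∏ i ∈ range (a + a + 2), (1 - (X : ℤ[X]) ^ (m + 1 + i)) =
        (∏ i ∈ range (2 * a + 1), (1 - (X : ℤ[X]) ^ (m + 1 + i))) * (1 - X ^ (m + 2 * a + 2)) := by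
      rw [show a + a + 2 = (2 * a + 1) + 1 by ring, Finset.prod_range_succ,
        show m + 1 + (2 * a + 1) = m + 2 * a + 2 by ring]
    have e5 : ∏ i ∈ range (a + a + 2), (1 - (X : ℤ[X]) ^ (m + i)) =
        (∏ i ∈ range (2 * a + 1), (1 - (X : ℤ[X]) ^ (m + 1 + i))) * (1 - X ^ m) := by
      rw [show a + a + 2 = (2 * a + 1) + 1 by ring, Finset.prod_range_succ', Nat.add_zero]
      congr 1
      refine Finset.prod_congr rfl fun i _ => ?_
      rw [show m + (i + 1) = m + 1 + i by ring]
    calc (SA (a + a + 2) (m + 1) + X ^ (a + 1) * SA (a + a + 2) m) *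
          ((∏ i ∈ range (2 * a + 1), (1 - (X : ℤ[X]) ^ (1 + i))) * (1 - X ^ (a + 1))) *
          (1 + X ^ (a + 1))
        = SA (a + a + 2) (m + 1) * ((∏ i ∈ range (2 * a + 1), (1 - (X : ℤ[X]) ^ (1 + i))) *
            (1 - X ^ (a + 1)) * (1 + X ^ (a + 1))) + X ^ (a + 1) * (SA (a + a + 2) m *
            ((∏ i ∈ range (2 * a + 1), (1 - (X : ℤ[X]) ^ (1 + i))) *
            (1 - X ^ (a + 1)) * (1 + X ^ (a + 1)))) := by ring
      _ = (∏ i ∈ range (2 * a + 1), (1 - (X : ℤ[X]) ^ (m + 1 + i))) * (1 - X ^ (m + 2 * a + 2)) +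
          X ^ (a + 1) * ((∏ i ∈ range (2 * a + 1), (1 - (X : ℤ[X]) ^ (m + 1 + i))) *
            (1 - X ^ m)) := by rw [← e3, e1, e2, e4, e5]
      _ = (∏ i ∈ range (2 * a + 1), (1 - (X : ℤ[X]) ^ (m + 1 + i))) * (1 - X ^ (m + a + 1)) *
          (1 + X ^ (a + 1)) := by
        rw [show m + 2 * a + 2 = m + (a + 1) + (a + 1) by ring,
          show m + a + 1 = m + (a + 1) by ring]
        simp only [pow_add]
        ring

end Pool.Agent.GaussPoset
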