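import Pool.Agent.W_448s8_h94.QdC

/-!
Window sums of the (incomplete) quadrics.
-/

namespace Pool.Agent.GaussPoset

set_option linter.unusedSectionVars false

open Polynomial Finset

universe u

namespace Qd

variable {a b : ℕ}

lemma lv_eq : lv (Qd a b) a = {mk a (by omega), mk (a + 1) (by omega)} := by
  ext x
  rw [mem_lv, lev_eq, mem_insert, mem_singleton]
  have hx := x.lt
  unfold fl
  constructor
  · intro h
    by_cases h1 : x.val ≤ a
    · rw [if_pos h1] at h
      exact Or.inl (ext (by rw [val_mk]; exact h))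
    · rw [if_neg h1] at h
      exact Or.inr (ext (by rw [val_mk]; omega))
  · rintro (rfl | rfl)
    · rw [val_mk, if_pos le_rfl]
    · rw [val_mk, if_neg (by omega)]; omega

lemma mk_ne : (mk a (by omega) : Qd a b) ≠ mk (a + 1) (by omega) := by
  intro h
  have := congrArg Qd.val h
  rw [val_mk, val_mk] at this
  omega

lemma card_lv : (lv (Qd a b) a).card = 2 := by
  rw [lv_eq, card_pair mk_ne]

lemma card_val_lt (k : ℕ) (hk : k ≤ a + b + 2) :
    (univ.filter (fun x : Qd a b => x.val < k)).card = k := by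
  classical
  have h1 : (univ.filter (fun x : Qd a b => x.val < k)).card = (range k).card := by
    refine Finset.card_bij (fun x _ => x.val) ?_ ?_ ?_
    · intro x hx
      rw [mem_filter] at hx
      exact mem_range.mpr hx.2
    · intro x _ y _ h
      exact ext h
    · intro y hy
      rw [mem_range] at hy
      exact ⟨mk y (by omega), by rw [mem_filter]; exact ⟨mem_univ _, by rw [val_mk]; exact hy⟩, rfl⟩
  rw [h1, card_range]

lemma below_eq : below (Qd a b) a = a := by
  classical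
  unfold below
  rw [← card_val_lt (a := a) (b := b) a (by omega), card_val_lt (a := a) (b := b) a (by omega)]
  refine Eq.trans ?_ (card_val_lt (a := a) (b := b) a (by omega))
  congr 1
  ext x
  simp only [mem_filter, mem_univ, true_and, lev_eq, fl]
  split_ifs <;> omega

end Qd

theorem dvd_Z_Qd (a n : ℕ) : (1 + X : ℤ[X]) ^ 2 ∣ Z (Qd a a) a n := by
  have h := dvd_Z (isGaussian_Qd a) a n
  rwa [Qd.card_lv] at h

/-- the missing elements -/
def QD (a b : ℕ) : Finset (Qd a a) := univ.filter (fun x => a + b + 2 ≤ x.val)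

lemma mem_QD {a b : ℕ} {x : Qd a a} : x ∈ QD a b ↔ a + b + 2 ≤ x.val := by
  unfold QD
  rw [mem_filter]
  exact ⟨fun h => h.2, fun h => ⟨mem_univ _, h⟩⟩

lemma QD_lower {a b : ℕ} (x y : Qd a a) (h : x ≤ y) (hy : y ∈ QD a b) : x ∈ QD a b := by
  rw [mem_QD] at hy ⊢
  rcases Qd.le_iff'.mp h with rfl | h
  · exact hy
  · omega

lemma QD_lev {a b : ℕ} (x : Qd a a) (hx : x ∈ QD a b) : a < lev x := by
  rw [mem_QD] at hx
  rw [Qd.lev_eq]
  unfold Qd.fl
  rw [if_neg (by omega)]
  omega

/-- the rest of the complete quadric -/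
def QD_iso {a b : ℕ} (hb : b ≤ a) : {x : Qd a a // x ∉ QD a b} ≃o Qd a b where
  toFun x := Qd.mk x.1.val (by have := x.2; rw [mem_QD] at this; omega)
  invFun y := ⟨Qd.mk y.val (by have := y.lt; omega), by
    rw [mem_QD, Qd.val_mk]
    have := y.lt
    omega⟩
  left_inv x := by
    apply Subtype.ext
    exact Qd.ext rfl
  right_inv y := Qd.ext rfl
  map_rel_iff' := by
    intro x y
    rw [← Subtype.coe_le_coe]
    change (Qd.mk x.1.val _ : Qd a b) ≤ Qd.mk y.1.val _ ↔ _
    rw [Qd.le_iff', Qd.le_iff', Qd.val_mk, Qd.val_mk]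
    constructor
    · rintro (h | h)
      · left
        apply Qd.ext
        have := congrArg Qd.val h
        rwa [Qd.val_mk, Qd.val_mk] at this
      · exact Or.inr h
    · rintro (h | h)
      · left
        apply Qd.ext
        rw [Qd.val_mk, Qd.val_mk, h]
      · exact Or.inr h

lemma QD_bd {a b : ℕ} (hb : b < a) : bdR (QD a b) = {Qd.mk (a + b + 2) (by omega)} := by
  classical
  ext z
  unfold bdR
  rw [mem_filter, mem_QD, mem_singleton]
  have hz := z.lt
  constructor
  · rintro ⟨h1, x, h2, h3⟩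
    rw [mem_QD] at h2
    by_contra hne
    have h4 : z.val ≠ a + b + 2 := fun h => hne (Qd.ext h)
    refine h3.2 (c := (Qd.mk (a + b + 2) (by omega) : Qd a a)) ?_ ?_
    · rw [Qd.lt_iff, Qd.val_mk]; omega
    · rw [Qd.lt_iff, Qd.val_mk]
      have := h3.1
      rw [Qd.lt_iff] at this
      omega
  · rintro rfl
    refine ⟨by rw [Qd.val_mk], Qd.mk (a + b + 1) (by omega), ?_, ?_, ?_⟩
    · rw [mem_QD, Qd.val_mk]; omega
    · rw [Qd.lt_iff, Qd.val_mk, Qd.val_mk]; omega
    · intro y h1 h2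
      rw [Qd.lt_iff, Qd.val_mk] at h1 h2
      omega

lemma ND_QD {a b : ℕ} (hb : b < a) (n : ℕ) : ND a (QD a b) (fun _ => 1) n = Z (Qd a b) a n := by
  classical
  rw [← Z_iso (QD_iso hb.le), ← ZB_off (fun x y h hy => QD_lower x y h hy)
    (fun x hx => QD_lev x hx) n]
  unfold ND ZB
  refine Finset.sum_congr rfl fun F _ => ?_
  refine Finset.sum_congr ?_ fun _ _ => rfl
  refine Finset.filter_congr fun e _ => ?_
  constructor
  · rintro ⟨h1, h2⟩
    have h3 := not_mem_of_not_dg (fun x hx => QD_lev x hx) h1 h2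
    refine ⟨h1, fun x hx => ⟨h3 x hx, ?_⟩, fun x _ hxF => ?_⟩
    · have hz0 : (Qd.mk (a + b + 2) (by omega) : Qd a a) ∈ QD a b := by
        rw [mem_QD, Qd.val_mk]
      have h4 := h2 (Qd.mk (a + b + 2) (by omega)) (by rw [QD_bd hb, mem_singleton])
      have h5 : x ≤ (Qd.mk (a + b + 2) (by omega) : Qd a a) := by
        rw [mem_QD] at hx
        rw [Qd.le_iff', Qd.val_mk]
        by_cases h6 : x.val = a + b + 2
        · exact Or.inl (Qd.ext h6)
        · exact Or.inr (by omega)
      have h6 := h1.2.2.1 _ _ h5 (h3 x hx) (h3 _ hz0)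
      rw [rho_of_lt (QD_lev x hx), rho_of_lt (QD_lev _ hz0)] at h6
      have h7 : ¬ (1 ≤ e (Qd.mk (a + b + 2) (by omega) : Qd a a)) := fun h => h4 (Or.inr h)
      change e x = 0
      omega
    · simpa using h1.2.1 x hxF
  · rintro ⟨h1, h2, -⟩
    refine ⟨h1, fun z hz hd => ?_⟩
    have hzR : z ∈ QD a b := (mem_filter.mp hz).1
    rcases hd with hd | hd
    · exact (h2 z hzR).1 hd
    · rw [(h2 z hzR).2] at hd
      exact absurd hd (by simp)

lemma cst_QD {a b : ℕ} (hb : b < a) :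
    cst a (fun _ => 1) (Qd.mk (a + b + 2) (by omega) : Qd a a) = b + 1 := by
  classical
  unfold cst
  have h1 : ∀ x : Qd a a, ez a (fun _ => 1) (Qd.mk (a + b + 2) (by omega)) x =
      if a + 1 < x.val ∧ x.val < a + b + 3 then 1 else 0 := by
    intro x
    unfold ez
    beta_reduce
    rw [Qd.lev_eq]
    unfold Qd.fl
    have hx := x.lt
    by_cases h : (Qd.mk (a + b + 2) (by omega) : Qd a a) ≤ x
    · rw [if_pos h]
      rw [Qd.le_iff', Qd.val_mk] at h
      have h2 : x.val < a + b + 3 := by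
        rcases h with h | h
        · rw [← h, Qd.val_mk]; omega
        · omega
      by_cases h3 : x.val ≤ a
      · rw [if_pos h3, if_neg (by omega)]
        omega
      · rw [if_neg h3]
        by_cases h4 : x.val = a + 1
        · rw [if_neg (by omega)]
          omega
        · rw [if_pos (by omega)]
          omega
    · rw [if_neg h, if_neg]
      intro h2
      apply h
      rw [Qd.le_iff', Qd.val_mk]
      by_cases h3 : x.val = a + b + 2
      · exact Or.inl (Qd.ext (by rw [Qd.val_mk, h3]))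
      · exact Or.inr (by omega)
  rw [Finset.sum_congr rfl (fun x _ => h1 x), Finset.sum_boole]
  have h2 : (univ.filter (fun x : Qd a a => a + 1 < x.val ∧ x.val < a + b + 3)).card =
      (Finset.Ioo (a + 1) (a + b + 3)).card := by
    refine Finset.card_bij (fun x _ => x.val) ?_ ?_ ?_
    · intro x hx
      rw [mem_filter] at hx
      exact Finset.mem_Ioo.mpr hx.2
    · intro x _ y _ h
      exact Qd.ext h
    · intro y hy
      rw [Finset.mem_Ioo] at hy
      exact ⟨Qd.mk y (by omega), by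
        rw [mem_filter]; exact ⟨mem_univ _, by rw [Qd.val_mk]; exact hy⟩, rfl⟩
  rw [h2, Nat.card_Ioo]
  simp only [Nat.cast_id]
  omega

lemma nab_QD0 {a b : ℕ} (hb : b < a) :
    nab a (Qd.mk (a + b + 2) (by omega) : Qd a a) = 2 := by
  classical
  unfold nab
  rw [Finset.filter_true_of_mem, Qd.card_lv]
  intro x hx
  rw [Qd.lv_eq, mem_insert, mem_singleton] at hx
  rw [Qd.le_iff', Qd.val_mk]
  right
  rcases hx with rfl | rfl
  · rw [Qd.val_mk]; omega
  · rw [Qd.val_mk]; omega

lemma nab_QD1 {a b : ℕ} (hb : b < a) :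
    nab (a + 1) (Qd.mk (a + b + 2) (by omega) : Qd a a) = 1 := by
  classical
  unfold nab
  rw [Finset.card_eq_one]
  refine ⟨Qd.mk (a + 2) (by omega), ?_⟩
  ext x
  rw [mem_filter, mem_lv, Qd.lev_eq, mem_singleton]
  unfold Qd.fl
  constructor
  · rintro ⟨h1, h2⟩
    apply Qd.ext
    rw [Qd.val_mk]
    split_ifs at h1 <;> omega
  · rintro rfl
    rw [Qd.val_mk, if_neg (by omega), Qd.le_iff', Qd.val_mk, Qd.val_mk]
    refine ⟨by omega, ?_⟩
    by_cases h : b = 0
    · left
      apply Qd.ext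
      rw [Qd.val_mk, Qd.val_mk]; omega
    · right; omega

lemma nst_QD {a b : ℕ} (hb : b < a) :
    nst a (fun _ => 1) (Qd.mk (a + b + 2) (by omega) : Qd a a) = 2 := by
  classical
  refine Eq.trans ?_ (nab_QD0 hb)
  unfold nst nab
  congr 1
  ext x
  simp only [mem_filter, mem_univ, true_and, mem_lv]
  constructor
  · rintro ⟨h1, h2, h3⟩
    exact ⟨by omega, h1⟩
  · rintro ⟨h1, h2⟩
    exact ⟨h2, by omega, by omega⟩

theorem Z_QD_lt {a b n : ℕ} (hb : b < a) (hn : n ≤ b) : Z (Qd a a) a n = Z (Qd a b) a n := by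
  rw [Z_split a (QD a b) (fun _ => 1) n, ND_QD hb, DG_eq_zero (fun x hx => QD_lev x hx), add_zero]
  intro z hz
  rw [QD_bd hb, mem_singleton] at hz
  rw [hz, cst_QD hb]
  omega

theorem Z_QD_eq {a b : ℕ} (hb : b < a) :
    Z (Qd a a) a (b + 1) = Z (Qd a b) a (b + 1) + X ^ (a + 2) * (1 + X) := by
  classical
  have hone : (1 : ℕ) ≤ lev (Qd.mk (a + b + 2) (by omega) : Qd a a) - a := by
    rw [Qd.lev_eq]
    unfold Qd.fl
    rw [Qd.val_mk, if_neg (by omega)]
    omega
  rw [Z_split a (QD a b) (fun _ => 1) (b + 1), ND_QD hb]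
  congr 1
  rw [DG_eq (fun x hx => QD_lev x hx) (fun _ _ => le_rfl)
    (fun z hz => by
      rw [QD_bd hb, mem_singleton] at hz
      rw [hz]; exact hone)
    (fun z hz => by
      rw [QD_bd hb, mem_singleton] at hz
      rw [hz, cst_QD hb])]
  have hf : (bdR (QD a b)).filter (fun z => cst a (fun _ => 1) z = b + 1) =
      {Qd.mk (a + b + 2) (by omega)} := by
    rw [QD_bd hb, Finset.filter_true_of_mem]
    intro z hz
    rw [mem_singleton] at hz
    rw [hz, cst_QD hb]
  rw [hf, Finset.sum_singleton, if_pos (adm_ez Qd.gradedBelow hone le_rfl),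
    nf_ez Qd.gradedBelow hone le_rfl, Qd.below_eq, nst_QD hb]
  have h1 := pk_ez (i := a) (h := fun _ => 1) (z := (Qd.mk (a + b + 2) (by omega) : Qd a a))
    Qd.gradedBelow hone le_rfl
  rw [Qd.card_lv, nab_QD0 hb, nab_QD1 hb] at h1
  have h2 : (Pk a (ez a (fun _ => 1) (Qd.mk (a + b + 2) (by omega) : Qd a a))).card = 1 := by omega
  rw [h2, pow_one]

/-- LEMMA Q, small energies -/
theorem quadric_dvd {Q : Type u} [Fintype Q] [PartialOrder Q] [DecidableEq Q] {a b : ℕ}
    (φ : Q ≃o Qd a b) (hb : b ≤ a) {n : ℕ} (hn : n ≤ b) : (1 + X : ℤ[X]) ^ 2 ∣ Z Q a n := by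
  rw [Z_iso φ]
  rcases eq_or_lt_of_le hb with rfl | hlt
  · exact dvd_Z_Qd b n
  · rw [← Z_QD_lt hlt hn]
    exact dvd_Z_Qd a n

/-- LEMMA Q, complete quadric -/
theorem quadric_dvd_complete {Q : Type u} [Fintype Q] [PartialOrder Q] [DecidableEq Q] {a : ℕ}
    (φ : Q ≃o Qd a a) (n : ℕ) : (1 + X : ℤ[X]) ^ 2 ∣ Z Q a n := by
  rw [Z_iso φ]
  exact dvd_Z_Qd a n

/-- LEMMA Q, first energy of an incomplete quadric -/
theorem quadric_lead {Q : Type u} [Fintype Q] [PartialOrder Q] [DecidableEq Q] {a b : ℕ}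
    (φ : Q ≃o Qd a b) (hb : b < a) :
    (1 + X : ℤ[X]) ^ 2 ∣ Z Q a (b + 1) + X ^ (a + 2) * (1 + X) := by
  rw [Z_iso φ, ← Z_QD_eq hb]
  exact dvd_Z_Qd a (b + 1)

end Pool.Agent.GaussPoset
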